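import Pool.Agent.Q185.NP.Stm

/-!
# Project NP: recurrence along a progression (B5)
-/

set_option autoImplicit false
set_option linter.unusedSectionVars false

namespace Pool.Agent.Q185.NP

open Q70.Nil Topology Filter Set
open scoped commutatorElement

section OC

variable {Q : Type} [Group Q] [TopologicalSpace Q]

theorem isClosed_OC (S Λ : Subgroup Q) (x : Q) : IsClosed (OC S Λ x) := isClosed_closure

theorem self_mem_OC (S Λ : Subgroup Q) (x : Q) : x ∈ OC S Λ x :=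
  subset_closure ⟨1, one_mem _, 1, one_mem _, by simp⟩

theorem mem_OC_of {S Λ : Subgroup Q} {x s l : Q} (hs : s ∈ S) (hl : l ∈ Λ) :
    s * x * l ∈ OC S Λ x := subset_closure ⟨s, hs, l, hl, rfl⟩

variable [IsTopologicalGroup Q]

theorem OC_left {S Λ : Subgroup Q} {x s w : Q} (hs : s ∈ S) (hw : w ∈ OC S Λ x) :
    s * w ∈ OC S Λ x := by
  have hcl : IsClosed {w | s * w ∈ OC S Λ x} := (isClosed_OC S Λ x).preimage (by fun_prop)
  refine closure_minimal ?_ hcl hw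
  rintro _ ⟨s', hs', l, hl, rfl⟩
  refine subset_closure ⟨s * s', mul_mem hs hs', l, hl, ?_⟩
  group

theorem OC_right {S Λ : Subgroup Q} {x l w : Q} (hl : l ∈ Λ) (hw : w ∈ OC S Λ x) :
    w * l ∈ OC S Λ x := by
  have hcl : IsClosed {w | w * l ∈ OC S Λ x} := (isClosed_OC S Λ x).preimage (by fun_prop)
  refine closure_minimal ?_ hcl hw
  rintro _ ⟨s', hs', l', hl', rfl⟩
  refine subset_closure ⟨s', hs', l' * l, mul_mem hl' hl, ?_⟩
  group

theorem OC_trans {S Λ : Subgroup Q} {x y z : Q} (hy : y ∈ OC S Λ x) (hz : z ∈ OC S Λ y) :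
    z ∈ OC S Λ x := by
  refine closure_minimal ?_ (isClosed_OC S Λ x) hz
  rintro _ ⟨s', hs', l', hl', rfl⟩
  exact OC_right hl' (OC_left hs' hy)

theorem OC_comm {S Λ : Subgroup Q} {x t w : Q} (ht : ∀ s ∈ S, t * s = s * t)
    (hw : w ∈ OC S Λ x) : t * w ∈ OC S Λ (t * x) := by
  have hcl : IsClosed {w | t * w ∈ OC S Λ (t * x)} :=
    (isClosed_OC S Λ (t * x)).preimage (by fun_prop)
  refine closure_minimal ?_ hcl hw
  rintro _ ⟨s', hs', l', hl', rfl⟩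
  refine subset_closure ⟨s', hs', l', hl', ?_⟩
  rw [← mul_assoc, ← mul_assoc, ht s' hs', mul_assoc s']

theorem mem_closure_pair_comm {σ τ : Q} (h : σ * τ = τ * σ) {s : Q} :
    s ∈ Subgroup.closure {σ, τ} ↔ ∃ l i : ℤ, s = σ ^ l * τ ^ i := by
  have hc : ∀ a b : ℤ, σ ^ a * τ ^ b = τ ^ b * σ ^ a := fun a b =>
    (show Commute σ τ from h).zpow_zpow a b
  constructor
  · intro hs
    induction hs using Subgroup.closure_induction with
    | mem x hx =>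
      rcases hx with rfl | hx
      · exact ⟨1, 0, by simp⟩
      · rw [mem_singleton_iff] at hx
        exact ⟨0, 1, by simp [hx]⟩
    | one => exact ⟨0, 0, by simp⟩
    | mul x y _ _ hx hy =>
      obtain ⟨l, i, rfl⟩ := hx
      obtain ⟨l', i', rfl⟩ := hy
      refine ⟨l + l', i + i', ?_⟩
      rw [zpow_add, zpow_add, mul_assoc, ← mul_assoc (τ ^ i), ← hc l' i]
      simp only [mul_assoc]
    | inv x _ hx =>
      obtain ⟨l, i, rfl⟩ := hx
      refine ⟨-l, -i, ?_⟩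
      rw [mul_inv_rev, ← zpow_neg, ← zpow_neg, hc]
  · rintro ⟨l, i, rfl⟩
    exact mul_mem (zpow_mem (Subgroup.subset_closure (by simp)) _)
      (zpow_mem (Subgroup.subset_closure (by simp)) _)

end OC

theorem fi (hD : S_DM) : S_FI := by
  intro Q _ _ _ hnil Λ hΛ hcpt H σ τ hcomm hH hpath k hk j V hV
  have hk0 : (0 : ℤ) < k := by exact_mod_cast hk
  have hdm := fun (S : Subgroup Q) x y => hD Q hnil Λ hΛ hcpt S x y
  have hcz : ∀ a b : ℤ, σ ^ a * τ ^ b = τ ^ b * σ ^ a := fun a b =>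
    (show Commute σ τ from hcomm).zpow_zpow a b
  have hcommk : σ * τ ^ (k : ℤ) = τ ^ (k : ℤ) * σ := by
    have := hcz 1 k
    simpa using this
  set Sk : Subgroup Q := Subgroup.closure {σ, τ ^ (k : ℤ)} with hSk
  have hmemk : ∀ s, s ∈ Sk ↔ ∃ l i : ℤ, s = σ ^ l * τ ^ ((k : ℤ) * i) := by
    intro s
    rw [hSk, mem_closure_pair_comm hcommk]
    simp only [← zpow_mul]
  have hcs : ∀ i : ℤ, ∀ s ∈ Sk, τ ^ i * s = s * τ ^ i := by
    intro i s hs
    obtain ⟨l, i', rfl⟩ := (hmemk s).1 hs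
    rw [← mul_assoc, ← hcz, mul_assoc, mul_assoc, ← zpow_add, ← zpow_add, add_comm]
  -- the finite cover
  have hcover : ∀ w ∈ OC (Subgroup.closure {σ, τ}) Λ 1, ∃ i : Fin k, w ∈ OC Sk Λ (τ ^ (i.val : ℤ)) := by
    have hcl : IsClosed (⋃ i : Fin k, OC Sk Λ (τ ^ (i.val : ℤ))) :=
      isClosed_iUnion_of_finite fun i => isClosed_OC _ _ _
    have hsub : OC (Subgroup.closure {σ, τ}) Λ 1 ⊆ ⋃ i : Fin k, OC Sk Λ (τ ^ (i.val : ℤ)) := by
      refine closure_minimal ?_ hcl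
      rintro _ ⟨s, hs, l, hl, rfl⟩
      obtain ⟨a, i, rfl⟩ := (mem_closure_pair_comm hcomm).1 hs
      have h1 : 0 ≤ i % k := Int.emod_nonneg _ hk0.ne'
      have h2 : i % k < k := Int.emod_lt_of_pos _ hk0
      refine mem_iUnion.2 ⟨⟨(i % k).toNat, by omega⟩, ?_⟩
      have h3 : (((i % k).toNat : ℕ) : ℤ) = i % k := Int.toNat_of_nonneg h1
      refine subset_closure ⟨σ ^ a * τ ^ ((k : ℤ) * (i / k)), (hmemk _).2 ⟨a, i / k, rfl⟩, l, hl, ?_⟩
      simp only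
      rw [h3, mul_one, mul_assoc (σ ^ a) (τ ^ ((k : ℤ) * (i / k))), ← zpow_add,
        Int.mul_ediv_add_emod]
    intro w hw
    exact mem_iUnion.1 (hsub hw)
  -- paths
  have hP : ∀ h, JIn H h → h ∈ OC Sk Λ 1 := by
    rintro h ⟨γ, hγ, hγ0, hγ1, hγH⟩
    set T : Set unitInterval := {t | γ t ∈ OC Sk Λ 1} with hT
    have hTc : IsClosed T := (isClosed_OC _ _ _).preimage hγ
    have hcompl : Tᶜ = ⋃ i : Fin k, ⋃ (_ : τ ^ (i.val : ℤ) ∉ OC Sk Λ 1),
        {t | γ t ∈ OC Sk Λ (τ ^ (i.val : ℤ))} := by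
      ext t
      simp only [mem_compl_iff, mem_iUnion, hT, mem_ofPred_eq]
      constructor
      · intro ht
        obtain ⟨i, hi⟩ := hcover _ (hH _ (hγH t))
        exact ⟨i, fun h => ht (OC_trans h hi), hi⟩
      · rintro ⟨i, hi, hit⟩ ht
        exact hi (OC_trans ht (hdm _ _ _ hit))
    have hTo : IsOpen T := by
      rw [← isClosed_compl_iff, hcompl]
      exact isClosed_iUnion_of_finite fun i => isClosed_iUnion_of_finite fun _ =>
        (isClosed_OC _ _ _).preimage hγ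
    have h0 : (0 : unitInterval) ∈ T := by
      change γ 0 ∈ OC Sk Λ 1
      rw [hγ0]
      exact self_mem_OC _ _ _
    have huniv : T = univ := by
      rcases isClopen_iff.1 ⟨hTc, hTo⟩ with h10 | h10
      · rw [h10] at h0
        exact absurd h0 (notMem_empty _)
      · exact h10
    have h11 : (1 : unitInterval) ∈ T := huniv ▸ mem_univ _
    rw [← hγ1]
    exact h11
  have h1j : (1 : Q) ∈ OC Sk Λ (τ ^ (j : ℤ)) := by
    obtain ⟨n, hn, hnΛ⟩ := hpath (-(j : ℤ))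
    have h1 := OC_right hnΛ (hP n hn)
    rw [mul_inv_cancel_left] at h1
    have h2 := OC_comm (hcs j) h1
    rwa [← zpow_add, add_neg_cancel, zpow_zero, mul_one] at h2
  -- cluster point
  obtain ⟨ξ, -, hξ⟩ := isCompact_univ.exists_mapClusterPt (f := (atTop : Filter ℕ))
    (u := fun n : ℕ => (QuotientGroup.mk (τ ^ ((k : ℤ) * n)) : Q ⧸ Λ)) (by simp)
  obtain ⟨z, rfl⟩ := QuotientGroup.mk_surjective ξ
  have hz : ∀ W ∈ 𝓝 z, ∀ N : ℕ, ∃ n, N ≤ n ∧ ∃ l ∈ Λ, τ ^ ((k : ℤ) * n) * l ∈ W := by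
    intro W hW N
    have h1 : (QuotientGroup.mk '' W : Set (Q ⧸ Λ)) ∈ 𝓝 (QuotientGroup.mk z) :=
      QuotientGroup.isOpenMap_coe.image_mem_nhds hW
    have h2 := (mapClusterPt_iff_frequently.1 hξ) _ h1
    obtain ⟨n, hn, w, hw, hwn⟩ := (frequently_atTop.1 h2) N
    refine ⟨n, hn, _, QuotientGroup.eq.1 hwn.symm, ?_⟩
    rw [mul_inv_cancel_left]
    exact hw
  have hz0 : z ∈ OC Sk Λ 1 := by
    refine mem_closure_iff_nhds.2 fun W hW => ?_
    obtain ⟨n, -, l, hl, hnl⟩ := hz W hW 0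
    exact ⟨_, hnl, τ ^ ((k : ℤ) * n), (hmemk _).2 ⟨0, n, by simp⟩, l, hl, by simp⟩
  have h3 : τ ^ (j : ℤ) * z ∈ OC Sk Λ (τ ^ (j : ℤ)) := by
    have := OC_comm (hcs j) hz0
    rwa [mul_one] at this
  have h4 : (1 : Q) ∈ OC Sk Λ (τ ^ (j : ℤ) * z) := OC_trans (hdm _ _ _ h3) h1j
  obtain ⟨V', hV'V, hV'o, hV'1⟩ := mem_nhds_iff.1 hV
  obtain ⟨_, hv, s, hs, l, hl, rfl⟩ := mem_closure_iff.1 h4 V' hV'o hV'1
  obtain ⟨a, m, rfl⟩ := (hmemk s).1 hs
  have hW : {z' | σ ^ a * τ ^ ((k : ℤ) * m) * (τ ^ (j : ℤ) * z') * l ∈ V'} ∈ 𝓝 z :=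
    (hV'o.preimage (by fun_prop)).mem_nhds hv
  obtain ⟨n, hn, l', hl', hnl⟩ := hz _ hW (m.natAbs + 1)
  have hpos : 0 < m + n := by omega
  refine ⟨a, (m + n).toNat, by omega, l' * l, mul_mem hl' hl, hV'V ?_⟩
  have hcast : (((m + n).toNat : ℕ) : ℤ) = m + n := Int.toNat_of_nonneg hpos.le
  have e : σ ^ a * τ ^ (k * (m + n).toNat + j) * (l' * l) =
      σ ^ a * τ ^ ((k : ℤ) * m) * (τ ^ (j : ℤ) * (τ ^ ((k : ℤ) * n) * l')) * l := by
    have h5 : τ ^ (k * (m + n).toNat + j) = τ ^ ((k : ℤ) * m) * (τ ^ (j : ℤ) * τ ^ ((k : ℤ) * n)) := by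
      rw [← zpow_natCast, ← zpow_add, ← zpow_add]
      congr 1
      push_cast
      rw [hcast]
      ring
    rw [h5]
    group
  rw [e]
  exact hnl

end Pool.Agent.Q185.NP
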