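import Pool.Agent.Q185.NP.Stm

/-!
# Project NP: generation of the lower central series by paths (B2)
-/

set_option autoImplicit false
set_option linter.unusedSectionVars false

namespace Pool.Agent.Q185.NP

open Q70.Nil Topology Filter Set
open scoped commutatorElement

section

variable {Q : Type} [Group Q] {H : Subgroup Q}

theorem lcs_comm {i : ℕ} {x y : Q} (hx : x ∈ H.lowerCentralSeries i) (hy : y ∈ H) :
    ⁅x, y⁆ ∈ H.lowerCentralSeries (i + 1) := Subgroup.commutator_mem_commutator hx hy

theorem lcs_comm' {i : ℕ} {x y : Q} (hx : x ∈ H.lowerCentralSeries i) (hy : y ∈ H) :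
    ⁅y, x⁆ ∈ H.lowerCentralSeries (i + 1) := by
  rw [← commutatorElement_inv]
  exact inv_mem (lcs_comm hx hy)

theorem lcs_le (i : ℕ) : H.lowerCentralSeries i ≤ H := Subgroup.lowerCentralSeries_le_self H i

end

theorem pg : S_PG := by
  intro Q _ _ _ S H hSH hab hdec i
  induction i with
  | zero =>
    intro K h1 h2 h3 h hh
    obtain ⟨n, s, hn, hs, rfl⟩ := hdec h hh
    exact mul_mem (h2 n hn) (h3 rfl hs)
  | succ i ih =>
    intro K h1 h2 _
    let X : Subgroup Q :=
      { carrier := {x | x ∈ H.lowerCentralSeries i ∧ ∀ y ∈ H, ⁅x, y⁆ ∈ K}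
        mul_mem' := by
          rintro x x' ⟨hx, hx1⟩ ⟨hx', hx1'⟩
          refine ⟨mul_mem hx hx', fun y hy => ?_⟩
          rw [comm_mul_left]
          exact mul_mem (mul_mem (h1 (lcs_comm' (lcs_comm hx' hy) (lcs_le i hx))) (hx1' y hy))
            (hx1 y hy)
        one_mem' := ⟨one_mem _, fun y _ => by rw [commutatorElement_one_left]; exact one_mem _⟩
        inv_mem' := by
          rintro x ⟨hx, hx1⟩
          refine ⟨inv_mem hx, fun y hy => ?_⟩
          have e : ⁅x⁻¹, y⁆ = ⁅x⁻¹, ⁅x, y⁆⁻¹⁆ * ⁅x, y⁆⁻¹ := by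
            simp only [commutatorElement_def]; group
          rw [e]
          exact mul_mem (h1 (lcs_comm' (inv_mem (lcs_comm hx hy)) (lcs_le i (inv_mem hx))))
            (inv_mem (hx1 y hy)) }
    have hX : H.lowerCentralSeries i ≤ X := by
      refine ih X (fun x hx => ⟨Subgroup.lowerCentralSeries_antitone H (Nat.le_succ i) hx,
        fun y hy => h1 (lcs_comm hx hy)⟩) ?_ ?_
      · rintro h ⟨γ, hγ, hγ0, hγ1, hγH⟩
        refine ⟨hγ1 ▸ hγH 1, fun y hy => h2 _ ⟨fun t => ⁅γ t, y⁆, ?_, ?_, ?_, fun t =>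
          lcs_comm (hγH t) hy⟩⟩
        · simp only [commutatorElement_def]; fun_prop
        · simp only [hγ0, commutatorElement_one_left]
        · simp only [hγ1]
      · rintro rfl s hs
        refine ⟨hSH hs, fun y hy => ?_⟩
        obtain ⟨n, s', ⟨γ, hγ, hγ0, hγ1, hγH⟩, hs', rfl⟩ := hdec y hy
        have h5 : ⁅s, s'⁆ = 1 := by
          rw [commutatorElement_eq_one_iff_mul_comm]
          exact hab s hs s' hs'
        rw [comm_mul_right, h5, commutatorElement_one_right, mul_one, mul_one]
        refine h2 _ ⟨fun t => ⁅s, γ t⁆, ?_, ?_, ?_, fun t => ?_⟩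
        · simp only [commutatorElement_def]; fun_prop
        · simp only [hγ0, commutatorElement_one_right]
        · simp only [hγ1]
        · exact lcs_comm (i := 0) (hSH hs) (hγH t)
    rw [Subgroup.lowerCentralSeries_succ, Subgroup.commutator_le]
    intro x hx y hy
    exact (hX hx).2 y hy

end Pool.Agent.Q185.NP
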