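import Pool.Agent.Q185.NP.EC
import Pool.Agent.Q185.NP.PG
import Pool.Agent.Q185.NP.FI

/-!
# Project NP: assembly
-/

set_option autoImplicit false
set_option linter.unusedSectionVars false

namespace Pool.Agent.Q185.NP

open Q70.Nil Topology Filter Set
open scoped commutatorElement

section jin

variable {Q : Type} [Group Q] [TopologicalSpace Q] [IsTopologicalGroup Q] {H : Subgroup Q}

theorem JIn.mul {x y : Q} (hx : JIn H x) (hy : JIn H y) : JIn H (x * y) := by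
  obtain ⟨γ, hγ, hγ0, hγ1, hγH⟩ := hx
  obtain ⟨δ, hδ, hδ0, hδ1, hδH⟩ := hy
  exact ⟨fun t => γ t * δ t, hγ.mul hδ, by simp [hγ0, hδ0], by simp [hγ1, hδ1],
    fun t => mul_mem (hγH t) (hδH t)⟩

theorem JIn.inv {x : Q} (hx : JIn H x) : JIn H x⁻¹ := by
  obtain ⟨γ, hγ, hγ0, hγ1, hγH⟩ := hx
  exact ⟨fun t => (γ t)⁻¹, hγ.inv, by simp [hγ0], by simp [hγ1], fun t => inv_mem (hγH t)⟩

theorem JIn.conj {x y : Q} (hx : JIn H x) (hy : y ∈ H) : JIn H (y * x * y⁻¹) := by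
  obtain ⟨γ, hγ, hγ0, hγ1, hγH⟩ := hx
  exact ⟨fun t => y * γ t * y⁻¹, by fun_prop, by simp [hγ0], by simp [hγ1],
    fun t => mul_mem (mul_mem hy (hγH t)) (inv_mem hy)⟩

theorem JIn.mem {x : Q} (hx : JIn H x) : x ∈ H := by
  obtain ⟨γ, _, _, hγ1, hγH⟩ := hx
  exact hγ1 ▸ hγH 1

theorem JIn.sub {K : Subgroup Q} (hK : H ≤ K) {x : Q} (hx : JIn H x) (hxK : x ∈ K) :
    JIn (H.subgroupOf K) ⟨x, hxK⟩ := by
  obtain ⟨γ, hγ, hγ0, hγ1, hγH⟩ := hx
  exact ⟨fun t => ⟨γ t, hK (hγH t)⟩, by fun_prop, Subtype.ext hγ0, Subtype.ext hγ1,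
    fun t => Subgroup.mem_subgroupOf.2 (hγH t)⟩

theorem mem_path_mul {S H : Subgroup Q} (hS : S ≤ H) {T : Set Q} (hH : H = Subgroup.closure T)
    (hT : ∀ x ∈ T, ∃ n s, JIn H n ∧ s ∈ S ∧ x = n * s) :
    ∀ x ∈ H, ∃ n s, JIn H n ∧ s ∈ S ∧ x = n * s := by
  subst hH
  intro x hx
  induction hx using Subgroup.closure_induction with
  | mem x hx => exact hT x hx
  | one =>
    exact ⟨1, 1, ⟨fun _ => 1, continuous_const, rfl, rfl, fun _ => one_mem _⟩, one_mem _,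
      (mul_one 1).symm⟩
  | mul x y hx hy hx' hy' =>
    obtain ⟨n, s, hn, hs, rfl⟩ := hx'
    obtain ⟨n', s', hn', hs', rfl⟩ := hy'
    refine ⟨n * (s * n' * s⁻¹), s * s', hn.mul (hn'.conj (hS hs)), mul_mem hs hs', ?_⟩
    group
  | inv x hx hx' =>
    obtain ⟨n, s, hn, hs, rfl⟩ := hx'
    refine ⟨s⁻¹ * n⁻¹ * s, s⁻¹, ?_, inv_mem hs, by group⟩
    have := hn.inv.conj (hS (inv_mem hs))
    rwa [inv_inv] at this

end jin

section

variable {G : Type} [Group G] [TopologicalSpace G] [IsTopologicalGroup G] {Γ : Subgroup G} {g : G}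
  {d : ℕ}

theorem HH_le_Qs (hA : S_A1) (hP : S_POW) : HH d g ≤ Qs d G := fun _ hh =>
  (mem_Qs hA _).2 (HH_le_Pl hA hP hh)

theorem comm_st : (cst g : QG d G) * pw g 1 = pw g 1 * cst g := by
  ext a
  · simp only [mul_fn, cst, pw, sh_zero_left]
    exact (Commute.self_zpow g _)
  · change (0 : ℤ) + 1 = 1 + 0
    norm_num

theorem NN.path {u : G} (hu : u ∈ NN G) : ∃ δ : unitInterval → G, Continuous δ ∧ δ 0 = 1 ∧
    δ 1 = u ∧ ∀ t, δ t ∈ NN G := by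
  obtain ⟨δ, hδ, hδ0, hδ1⟩ := hu
  exact ⟨δ, hδ, hδ0, hδ1, fun t => joinedOne_path hδ hδ0 t⟩

theorem HH_dec (hN : Nd Γ g) (h : QG d G) (hh : h ∈ HH d g) :
    ∃ n s, JIn (HH d g) n ∧ s ∈ Subgroup.closure {(cst g : QG d G), pw g 1} ∧ h = n * s := by
  have h1 : (cst g : QG d G) ∈ Subgroup.closure {(cst g : QG d G), pw g 1} :=
    Subgroup.subset_closure (by simp)
  have h2 : (pw g 1 : QG d G) ∈ Subgroup.closure {(cst g : QG d G), pw g 1} :=
    Subgroup.subset_closure (by simp)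
  refine mem_path_mul (S := Subgroup.closure {(cst g : QG d G), pw g 1}) ?_ rfl ?_ h hh
  · refine (Subgroup.closure_le _).2 ?_
    rintro x (rfl | hx)
    · exact cst_mem_HH g
    · rw [mem_singleton_iff] at hx
      rw [hx]
      exact pw_self_mem_HH
  · rintro _ ((⟨x, rfl⟩ | ⟨u, hu, rfl⟩) | ⟨u, hu, rfl⟩)
    · obtain ⟨n, hn, k, rfl⟩ := hN.gen x
      obtain ⟨δ, hδ, hδ0, hδ1, hδN⟩ := NN.path hn
      refine ⟨cst n, cst g ^ k, ⟨fun t => cst (δ t), continuous_cst.comp hδ, ?_, ?_,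
        fun t => cst_mem_HH _⟩, zpow_mem h1 k, ?_⟩
      · simp only [hδ0]; rfl
      · simp only [hδ1]
      · have e1 : (cst g : QG d G) ^ k = cst (g ^ k) := (map_zpow (cstHom d G) g k).symm
        rw [e1]
        exact map_mul (cstHom d G) n (g ^ k)
    · obtain ⟨δ, hδ, hδ0, hδ1, hδN⟩ := NN.path hu
      refine ⟨pw (u * g) 1 * (pw g 1)⁻¹, pw g 1, ⟨fun t => pw (δ t * g) 1 * (pw g 1)⁻¹, ?_, ?_, ?_,
        fun t => mul_mem (pw_mem_HH (hδN t)) (inv_mem pw_self_mem_HH)⟩, h2, by group⟩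
      · exact ((continuous_pw 1).comp (by fun_prop : Continuous fun t => δ t * g)).mul
          continuous_const
      · simp only [hδ0, one_mul, mul_inv_cancel]
      · simp only [hδ1]
    · obtain ⟨δ, hδ, hδ0, hδ1, hδN⟩ := NN.path hu
      refine ⟨ln u, 1, ⟨fun t => ln (δ t), continuous_ln.comp hδ, ?_, ?_,
        fun t => ln_mem_HH (hδN t)⟩, one_mem _, (mul_one _).symm⟩
      · simp only [hδ0]
        ext a
        · simp [ln]
        · rfl
      · simp only [hδ1]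

/-- **The main result for `(G, Γ, g)`**, near `1` in `QG`. -/
theorem near_one (hA : S_A1) (hP : S_POW) (hX : S_EX) (hA3 : S_A3) (hA4 : S_A4) (hDM : S_DM)
    (hSG : S_SG) (hN : Nd Γ g) (k : ℕ) (hk : 0 < k) (j : ℕ) (V : Set (QG d G))
    (hV : V ∈ 𝓝 (1 : QG d G)) :
    ∃ l : ℤ, ∃ n : ℕ, 0 < n ∧ ∃ q ∈ Lam d Γ, cst g ^ l * pw g 1 ^ (k * n + j) * q ∈ V := by
  have hle : HH d g ≤ Qs d G := HH_le_Qs hA hP
  have hnil : Group.IsNilpotent (Qs d G) := hA3 G d hN.nil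
  have hcpt : CompactSpace (Qs d G ⧸ LamS d Γ) := hA4 G d Γ hN.nil hN.coc
  have hclL : IsClosed (Lam d Γ : Set (QG d G)) := by
    have : (Lam d Γ : Set (QG d G)) = ⋂ a, (fun q : QG d G => q.fn a) ⁻¹' Γ := by
      ext q
      simp only [mem_iInter, mem_preimage]
      rfl
    rw [this]
    exact isClosed_iInter fun a => hN.cl.preimage (continuous_fn_apply a)
  have hcl : IsClosed (LamS d Γ : Set (Qs d G)) := hclL.preimage continuous_subtype_val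
  let σ : Qs d G := ⟨cst g, hle (cst_mem_HH g)⟩
  let τ : Qs d G := ⟨pw g 1, hle pw_self_mem_HH⟩
  let S : Subgroup (Qs d G) := Subgroup.closure {σ, τ}
  let H : Subgroup (Qs d G) := (HH d g).subgroupOf (Qs d G)
  have hστ : σ * τ = τ * σ := Subtype.ext comm_st
  have hSH : S ≤ H := by
    refine (Subgroup.closure_le _).2 ?_
    rintro x (rfl | hx)
    · exact cst_mem_HH g
    · rw [mem_singleton_iff] at hx
      rw [hx]
      exact pw_self_mem_HH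
  have hab : ∀ s ∈ S, ∀ t ∈ S, s * t = t * s := by
    intro s hs t ht
    obtain ⟨a, b, rfl⟩ := (mem_closure_pair_comm hστ).1 hs
    obtain ⟨a', b', rfl⟩ := (mem_closure_pair_comm hστ).1 ht
    have hc : Commute σ τ := hστ
    have h1 : Commute (σ ^ a) (σ ^ a' * τ ^ b') :=
      ((Commute.refl σ).zpow_zpow a a').mul_right (hc.zpow_zpow a b')
    have h2 : Commute (τ ^ b) (σ ^ a' * τ ^ b') :=
      (hc.symm.zpow_zpow b a').mul_right ((Commute.refl τ).zpow_zpow b b')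
    exact h1.mul_left h2
  have hmapS : ∀ s ∈ Subgroup.closure {(cst g : QG d G), pw g 1}, ∀ hs : s ∈ Qs d G,
      (⟨s, hs⟩ : Qs d G) ∈ S := by
    intro s hs hsQ
    obtain ⟨a, b, rfl⟩ := (mem_closure_pair_comm comm_st).1 hs
    exact (mem_closure_pair_comm hστ).2 ⟨a, b, rfl⟩
  have hdec : ∀ h ∈ H, ∃ n s, JIn H n ∧ s ∈ S ∧ h = n * s := by
    rintro ⟨h, hQ⟩ hh
    obtain ⟨n, s, hn, hs, rfl⟩ := HH_dec hN h (Subgroup.mem_subgroupOf.1 hh)
    have hnQ : n ∈ Qs d G := hle hn.mem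
    have hsQ : s ∈ Qs d G := by
      have := mul_mem (inv_mem hnQ) hQ
      rwa [inv_mul_cancel_left] at this
    exact ⟨⟨n, hnQ⟩, ⟨s, hsQ⟩, hn.sub hle hnQ, hmapS s hs hsQ, rfl⟩
  have hchar : ∀ χ : Qs d G → Circle, ContinuousOn χ H →
      (∀ x ∈ H, ∀ y ∈ H, χ (x * y) = χ x * χ y) →
      (∀ s ∈ S, χ s = 1) → (∀ h ∈ H, h ∈ LamS d Γ → χ h = 1) → ∀ h ∈ H, χ h = 1 := by
    intro χ hc hm hs hl
    classical
    let χ' : QG d G → Circle := fun x => if h : x ∈ Qs d G then χ ⟨x, h⟩ else 1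
    have hχ' : ∀ (x : QG d G) (h : x ∈ Qs d G), χ' x = χ ⟨x, h⟩ := fun x h => dif_pos h
    have hcont : ContinuousOn χ' (HH d g) := by
      rw [continuousOn_iff_continuous_domRestrict]
      have h1 : (Set.domRestrict (HH d g : Set (QG d G)) χ') =
          fun x : HH d g => χ ⟨x, hle x.2⟩ := by
        ext x
        exact congrArg _ (hχ' x.1 (hle x.2))
      rw [h1]
      exact hc.comp_continuous (f := fun x : HH d g => (⟨x, hle x.2⟩ : Qs d G)) (by fun_prop)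
        fun x => x.2
    have key := endgame hA hP hX G Γ g hN d χ' hcont (fun x hx y hy => by
      rw [hχ' _ (hle hx), hχ' _ (hle hy), hχ' _ (hle (mul_mem hx hy))]
      exact hm ⟨x, hle hx⟩ hx ⟨y, hle hy⟩ hy) (by
      rw [hχ' _ (hle (cst_mem_HH g))]
      exact hs σ (Subgroup.subset_closure (by simp))) (by
      rw [hχ' _ (hle pw_self_mem_HH)]
      exact hs τ (Subgroup.subset_closure (by simp))) (fun h hh hhL => by
      rw [hχ' _ (hle hh)]
      exact hl ⟨h, hle hh⟩ hh hhL)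
    rintro ⟨h, hQ⟩ hh
    have := key h hh
    rwa [hχ' _ hQ] at this
  have hOC := hSG (Qs d G) hnil (LamS d Γ) hcl hcpt S H hSH hab hdec hchar
  obtain ⟨u₀, hu₀, γ₀, hγ₀, hg⟩ := hN.fac
  obtain ⟨δ, hδ, hδ0, hδ1, hδN⟩ := NN.path hu₀
  have hpath : ∀ j : ℤ, ∃ n, JIn H n ∧ n⁻¹ * τ ^ j ∈ LamS d Γ := by
    intro j
    have hmem : ∀ t, (pw (δ t * γ₀) 1 : QG d G) ∈ HH d g := by
      intro t
      have e : δ t * γ₀ = (δ t * u₀⁻¹) * g := by rw [hg]; group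
      rw [e]
      exact pw_mem_HH (mul_mem (hδN t) (inv_mem hu₀))
    have hmem' : ∀ t, (pw (δ t * γ₀) j : QG d G) ∈ HH d g := by
      intro t
      rw [← pw_zpow]
      exact zpow_mem (hmem t) j
    have h0 : (pw γ₀ j : QG d G) ∈ HH d g := by
      have := hmem' 0
      rwa [hδ0, one_mul] at this
    have hJ : JIn (HH d g) (pw g j * (pw γ₀ j)⁻¹ : QG d G) := by
      refine ⟨fun t => pw (δ t * γ₀) j * (pw γ₀ j)⁻¹, ?_, ?_, ?_,
        fun t => mul_mem (hmem' t) (inv_mem h0)⟩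
      · exact ((continuous_pw j).comp (by fun_prop : Continuous fun t => δ t * γ₀)).mul
          continuous_const
      · simp only [hδ0, one_mul, mul_inv_cancel]
      · simp only [hδ1, ← hg]
    refine ⟨_, hJ.sub hle (hle hJ.mem), ?_⟩
    rw [LamS, Subgroup.mem_subgroupOf]
    have e : (((⟨pw g j * (pw γ₀ j)⁻¹, hle hJ.mem⟩ : Qs d G)⁻¹ * τ ^ j : Qs d G) : QG d G) =
        pw γ₀ j := by
      push_cast
      change (pw g j * (pw γ₀ j)⁻¹)⁻¹ * (pw g 1) ^ j = pw γ₀ j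
      rw [pw_zpow]
      group
    rw [e]
    exact fun a => zpow_mem hγ₀ _
  have hV' : (Subtype.val ⁻¹' V : Set (Qs d G)) ∈ 𝓝 (1 : Qs d G) :=
    continuous_subtype_val.continuousAt.preimage_mem_nhds (by exact hV)
  obtain ⟨l, n, hn, x, hx, hmem⟩ := fi hDM (Qs d G) hnil (LamS d Γ) hcl hcpt H σ τ hστ hOC hpath k hk
    j _ hV'
  refine ⟨l, n, hn, x, hx, ?_⟩
  have : ((σ ^ l * τ ^ (k * n + j) * x : Qs d G) : QG d G) ∈ V := hmem
  push_cast at this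
  exact this

theorem cst_zpow_fn (x : G) (l : ℤ) : (cst x : QG d G) ^ l = cst (x ^ l) :=
  (map_zpow (cstHom d G) x l).symm

/-- **The main result for `(G, Γ, g)`.** -/
theorem near_pts (hA : S_A1) (hP : S_POW) (hX : S_EX) (hA3 : S_A3) (hA4 : S_A4) (hDM : S_DM)
    (hSG : S_SG) (hN : Nd Γ g) (k : ℕ) (hk : 0 < k) (j : ℕ) {r : ℕ} (a : Fin r → Ix d)
    (W : Set G) (hW : W ∈ 𝓝 (1 : G)) :
    ∃ l : ℤ, ∃ n : ℕ, 0 < n ∧ (∃ γ ∈ Γ, g ^ l * γ ∈ W) ∧
      ∀ i, ∃ γ ∈ Γ, g ^ rv (a i) ((k : ℤ) * n + j) * g ^ l * γ ∈ W := by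
  have hV : {q : QG d G | q.fn 0 ∈ W ∧ ∀ i, q.fn (a i) ∈ W} ∈ 𝓝 (1 : QG d G) := by
    have h1 : ∀ b : Ix d, ∀ᶠ q in 𝓝 (1 : QG d G), q.fn b ∈ W := fun b =>
      (continuous_fn_apply b).continuousAt.preimage_mem_nhds (by exact hW)
    exact (h1 0).and (eventually_all.2 fun i => h1 (a i))
  obtain ⟨l, n, hn, q, hq, hq0, hqa⟩ := near_one hA hP hX hA3 hA4 hDM hSG hN k hk j _ hV
  have hfn : ∀ b : Ix d, (cst g ^ l * pw g 1 ^ (k * n + j) * q : QG d G).fn b =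
      g ^ l * g ^ rv b ((k : ℤ) * n + j) * q.fn (sh (((k * n + j : ℕ) : ℤ)) b) := by
    intro b
    rw [cst_zpow_fn, ← zpow_natCast, pw_zpow]
    simp only [mul_fn, mul_sf, cst, pw, sh_zero_left, zero_add]
    push_cast
    rfl
  refine ⟨l, n, hn, ⟨_, hq (sh (((k * n + j : ℕ) : ℤ)) 0), ?_⟩,
    fun i => ⟨_, hq (sh (((k * n + j : ℕ) : ℤ)) (a i)), ?_⟩⟩
  · have := hq0
    rw [hfn, rv_zero, zpow_zero, mul_one] at this
    exact this
  · have := hqa i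
    rw [hfn, ← zpow_add, add_comm l, zpow_add] at this
    exact this

end

end Pool.Agent.Q185.NP
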