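import Pool.Agent.Q70.NilMain

/-!
# Polynomial recurrence along progressions in totally minimal nilsystems: definitions

Project NP (frozen statement S04319).  `Ix d` is the group of coefficient vectors `a`, standing for the
integer polynomial `r_a(x) = ∑ a_e x ^ (e+1)`.  The group `QG d G` consists of pairs `(h, n)` with
`h : Ix d → G` and `n : ℤ`, with the product `(h, n) (h', n') = (h · (h' ∘ sh n), n + n')`, where
`r_{sh n a}(x) = r_a(x + n) - r_a(n)`.
-/

set_option autoImplicit false
set_option linter.unusedSectionVars false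

namespace Pool.Agent.Q185.NP

open Q70.Nil Topology Filter Set
open scoped commutatorElement

/-! ## Coefficient vectors -/

/-- coefficient vectors `a`, standing for the polynomial `∑ a_e x ^ (e+1)` -/
abbrev Ix (d : ℕ) := Fin (d + 1) → ℤ

/-- the value of the polynomial of `a` at `x` -/
def rv {d : ℕ} (a : Ix d) (x : ℤ) : ℤ := ∑ e : Fin (d + 1), a e * x ^ (e.val + 1)

/-- the coefficients of `r_a(x + m) - r_a(m)` -/
def sh {d : ℕ} (m : ℤ) (a : Ix d) : Ix d := fun e =>
  ∑ f : Fin (d + 1), a f * ((f.val + 1).choose (e.val + 1) : ℤ) * m ^ (f.val - e.val)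

/-- the coefficients of `r_a(t x)` -/
def dl {d : ℕ} (t : ℤ) (a : Ix d) : Ix d := fun e => t ^ (e.val + 1) * a e

variable {d : ℕ}

theorem rv_add (a b : Ix d) (x : ℤ) : rv (a + b) x = rv a x + rv b x := by
  simp only [rv, Pi.add_apply, add_mul, Finset.sum_add_distrib]

theorem rv_zero (x : ℤ) : rv (0 : Ix d) x = 0 := by simp [rv]

theorem rv_at_zero (a : Ix d) : rv a 0 = 0 := by simp [rv]

theorem sh_add_right (m : ℤ) (a b : Ix d) : sh m (a + b) = sh m a + sh m b := by
  funext e
  simp only [sh, Pi.add_apply, add_mul, Finset.sum_add_distrib]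

theorem dl_add_right (m : ℤ) (a b : Ix d) : dl m (a + b) = dl m a + dl m b := by
  funext e
  simp only [dl, Pi.add_apply, mul_add]

theorem dl_zero_right (m : ℤ) : dl m (0 : Ix d) = 0 := by
  funext e
  simp [dl]

theorem sh_zero_right (m : ℤ) : sh m (0 : Ix d) = 0 := by
  funext e
  simp [sh]

theorem rv_dl (t : ℤ) (a : Ix d) (x : ℤ) : rv (dl t a) x = rv a (t * x) := by
  simp only [rv, dl, mul_pow]
  refine Finset.sum_congr rfl fun e _ => ?_
  ring

theorem rv_sh (m : ℤ) (a : Ix d) (x : ℤ) : rv (sh m a) x = rv a (x + m) - rv a m := by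
  have key : ∀ f : Fin (d + 1), ∑ e : Fin (d + 1), ((f.val + 1).choose (e.val + 1) : ℤ) *
      m ^ (f.val - e.val) * x ^ (e.val + 1) = (x + m) ^ (f.val + 1) - m ^ (f.val + 1) := by
    intro f
    have h1 := add_pow x m (f.val + 1)
    rw [Finset.sum_range_succ'] at h1
    have h2 : ∑ e : Fin (d + 1), ((f.val + 1).choose (e.val + 1) : ℤ) *
      m ^ (f.val - e.val) * x ^ (e.val + 1) = ∑ e ∈ Finset.range (d + 1),
        ((f.val + 1).choose (e + 1) : ℤ) * m ^ (f.val - e) * x ^ (e + 1) :=
      Fin.sum_univ_eq_sum_range (fun e => ((f.val + 1).choose (e + 1) : ℤ) * m ^ (f.val - e) *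
        x ^ (e + 1)) (d + 1)
    have h3 : ∑ e ∈ Finset.range (d + 1),
        ((f.val + 1).choose (e + 1) : ℤ) * m ^ (f.val - e) * x ^ (e + 1) =
        ∑ e ∈ Finset.range (f.val + 1),
        ((f.val + 1).choose (e + 1) : ℤ) * m ^ (f.val - e) * x ^ (e + 1) := by
      symm
      refine Finset.sum_subset (Finset.range_subset_range.2 f.isLt) fun e _ he => ?_
      rw [Finset.mem_range, not_lt] at he
      rw [Nat.choose_eq_zero_of_lt (by omega)]
      simp
    rw [h2, h3, h1]
    simp only [Nat.add_sub_add_right, Nat.choose_zero_right, Nat.cast_one, mul_one, pow_zero,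
      one_mul, Nat.sub_zero, add_sub_cancel_right]
    refine Finset.sum_congr rfl fun e _ => ?_
    ring
  have h4 : rv (sh m a) x = ∑ f : Fin (d + 1), a f * ∑ e : Fin (d + 1),
      ((f.val + 1).choose (e.val + 1) : ℤ) * m ^ (f.val - e.val) * x ^ (e.val + 1) := by
    simp only [rv, sh, Finset.sum_mul, Finset.mul_sum]
    rw [Finset.sum_comm]
    refine Finset.sum_congr rfl fun f _ => Finset.sum_congr rfl fun e _ => ?_
    ring
  rw [h4]
  simp only [key, rv, mul_sub, Finset.sum_sub_distrib]

theorem rv_inj {a b : Ix d} (h : ∀ x, rv a x = rv b x) : a = b := by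
  classical
  let P : (Ix d) → Polynomial ℤ := fun a =>
    ∑ e : Fin (d + 1), Polynomial.C (a e) * Polynomial.X ^ (e.val + 1)
  have hP : ∀ a x, (P a).eval x = rv a x := by
    intro a x
    simp [P, rv, Polynomial.eval_finsetSum]
  have h1 : P a = P b := by
    refine Polynomial.funext fun x => ?_
    rw [hP, hP, h]
  have hc : ∀ (a : Ix d) (e : Fin (d + 1)), (P a).coeff (e.val + 1) = a e := by
    intro a e
    simp only [P, Polynomial.finsetSum_coeff, Polynomial.coeff_C_mul, Polynomial.coeff_X_pow]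
    rw [Finset.sum_eq_single e]
    · simp
    · intro f _ hf
      have : ¬ (e.val = f.val) := fun h => hf (Fin.ext (by omega))
      simp [this]
    · simp
  funext e
  rw [← hc a e, ← hc b e, h1]

theorem sh_sh (m n : ℤ) (a : Ix d) : sh n (sh m a) = sh (m + n) a := by
  refine rv_inj fun x => ?_
  rw [rv_sh, rv_sh, rv_sh, rv_sh]
  have e1 : x + n + m = x + (m + n) := by ring
  have e2 : n + m = m + n := by ring
  rw [e1, e2]
  ring

theorem sh_zero_left (a : Ix d) : sh 0 a = a := by
  refine rv_inj fun x => ?_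
  rw [rv_sh, rv_at_zero, add_zero, sub_zero]

theorem sh_dl (m t : ℤ) (a : Ix d) : sh m (dl t a) = dl t (sh (t * m) a) := by
  refine rv_inj fun x => ?_
  rw [rv_sh, rv_dl, rv_dl, rv_dl, rv_sh]
  have e1 : t * (x + m) = t * x + t * m := by ring
  rw [e1]

/-! ## The group `QG` -/

/-- pairs `(h, n)` -/
@[ext] structure QG (d : ℕ) (G : Type) where
  /-- the function -/
  fn : Ix d → G
  /-- the shift -/
  sf : ℤ

variable {G : Type} [Group G]

instance : Mul (QG d G) := ⟨fun p q => ⟨fun a => p.fn a * q.fn (sh p.sf a), p.sf + q.sf⟩⟩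
instance : One (QG d G) := ⟨⟨fun _ => 1, 0⟩⟩
instance : Inv (QG d G) := ⟨fun p => ⟨fun a => (p.fn (sh (-p.sf) a))⁻¹, -p.sf⟩⟩

@[simp] theorem mul_fn (p q : QG d G) (a : Ix d) : (p * q).fn a = p.fn a * q.fn (sh p.sf a) := rfl
@[simp] theorem mul_sf (p q : QG d G) : (p * q).sf = p.sf + q.sf := rfl
@[simp] theorem one_fn (a : Ix d) : (1 : QG d G).fn a = 1 := rfl
@[simp] theorem one_sf : (1 : QG d G).sf = 0 := rfl
@[simp] theorem inv_fn (p : QG d G) (a : Ix d) : (p⁻¹).fn a = (p.fn (sh (-p.sf) a))⁻¹ := rfl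
@[simp] theorem inv_sf (p : QG d G) : (p⁻¹).sf = -p.sf := rfl

instance : Group (QG d G) :=
  Group.ofLeftAxioms
    (fun p q r => by
      ext a
      · simp only [mul_fn, mul_sf, sh_sh, mul_assoc]
      · simp only [mul_sf, add_assoc])
    (fun p => by
      ext a
      · simp only [mul_fn, one_fn, one_sf, sh_zero_left, one_mul]
      · simp only [mul_sf, one_sf, zero_add])
    (fun p => by
      ext a
      · simp only [mul_fn, inv_fn, inv_sf, one_fn, inv_mul_cancel]
      · simp only [mul_sf, inv_sf, one_sf, neg_add_cancel])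

/-- the projection to `ℤ` as a homomorphism -/
def sfHom (d : ℕ) (G : Type) [Group G] : QG d G →* Multiplicative ℤ where
  toFun p := Multiplicative.ofAdd p.sf
  map_one' := rfl
  map_mul' _ _ := rfl

instance [TopologicalSpace G] : TopologicalSpace (QG d G) :=
  TopologicalSpace.induced (fun p : QG d G => (p.fn, p.sf)) inferInstance

section top

variable [TopologicalSpace G]

theorem continuous_pair : Continuous (fun p : QG d G => (p.fn, p.sf)) :=
  continuous_induced_dom

theorem continuous_fn : Continuous (fun p : QG d G => p.fn) :=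
  continuous_fst.comp continuous_pair

theorem continuous_fn_apply (a : Ix d) : Continuous (fun p : QG d G => p.fn a) :=
  (continuous_apply a).comp continuous_fn

theorem continuous_sf : Continuous (fun p : QG d G => p.sf) :=
  continuous_snd.comp continuous_pair

theorem continuous_QG {X : Type*} [TopologicalSpace X] {f : X → QG d G}
    (h1 : ∀ a, Continuous fun x => (f x).fn a) (h2 : Continuous fun x => (f x).sf) :
    Continuous f :=
  continuous_induced_rng.2 ((continuous_pi h1).prodMk h2)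

/-- a function of an integer parameter and a point is continuous if it is for each integer -/
theorem continuous_shift {X Y : Type*} [TopologicalSpace X] [TopologicalSpace Y] (n : X → ℤ)
    (hn : Continuous n) (F : ℤ → X → Y) (hF : ∀ k, Continuous (F k)) :
    Continuous fun x => F (n x) x := by
  rw [continuous_iff_continuousAt]
  intro x
  have h1 : (fun y => F (n x) y) =ᶠ[𝓝 x] fun y => F (n y) y := by
    have h2 : n ⁻¹' {n x} ∈ 𝓝 x := (hn.isOpen_preimage _ (isOpen_discrete _)).mem_nhds rfl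
    filter_upwards [h2] with y hy
    have : n y = n x := hy
    rw [this]
  exact ((hF (n x)).continuousAt).congr h1

instance [IsTopologicalGroup G] : IsTopologicalGroup (QG d G) where
  continuous_mul := by
    refine continuous_QG (fun a => ?_) ?_
    · refine (continuous_fn_apply a |>.comp continuous_fst).mul ?_
      exact continuous_shift (fun p : QG d G × QG d G => p.1.sf) (continuous_sf.comp continuous_fst)
        (fun k p => p.2.fn (sh k a)) fun k => (continuous_fn_apply _).comp continuous_snd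
    · exact (continuous_sf.comp continuous_fst).add (continuous_sf.comp continuous_snd)
  continuous_inv := by
    refine continuous_QG (fun a => ?_) ?_
    · refine Continuous.inv ?_
      exact continuous_shift (fun p : QG d G => p.sf) continuous_sf
        (fun k p => p.fn (sh (-k) a)) fun k => continuous_fn_apply _
    · exact continuous_sf.neg

instance [T2Space G] : T2Space (QG d G) := by
  refine T2Space.of_injective_continuous (f := fun p : QG d G => (p.fn, p.sf)) ?_
    continuous_induced_dom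
  intro p q h
  simp only [Prod.mk.injEq] at h
  exact QG.ext h.1 h.2

end top

/-! ## Special elements -/

/-- constant functions -/
def cst (x : G) : QG d G := ⟨fun _ => x, 0⟩

/-- `(a ↦ x ^ r_a(m), m)` -/
def pw (x : G) (m : ℤ) : QG d G := ⟨fun a => x ^ rv a m, m⟩

/-- `(a ↦ u ^ a_0, 0)` -/
def ln (u : G) : QG d G := ⟨fun a => u ^ (a 0), 0⟩

theorem pw_mul_pw (x : G) (m n : ℤ) : (pw x m * pw x n : QG d G) = pw x (m + n) := by
  ext a
  · simp only [mul_fn, pw, ← zpow_add, rv_sh]
    congr 1
    have : n + m = m + n := by ring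
    rw [this]
    ring
  · rfl

theorem pw_zero (x : G) : (pw x 0 : QG d G) = 1 := by
  ext a
  · simp [pw, rv_at_zero]
  · rfl

theorem pw_zpow (x : G) (m : ℤ) : (pw x 1 : QG d G) ^ m = pw x m := by
  have hnat : ∀ n : ℕ, (pw x 1 : QG d G) ^ n = pw x n := by
    intro n
    induction n with
    | zero => rw [pow_zero, Nat.cast_zero, pw_zero]
    | succ n ih => rw [pow_succ, ih, pw_mul_pw, Nat.cast_succ]
  obtain ⟨n, rfl | rfl⟩ := m.eq_nat_or_neg
  · rw [zpow_natCast, hnat]
  · rw [zpow_neg, zpow_natCast, hnat, inv_eq_iff_mul_eq_one, pw_mul_pw, add_neg_cancel, pw_zero]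

/-- constants as a homomorphism -/
def cstHom (d : ℕ) (G : Type) [Group G] : G →* QG d G where
  toFun := cst
  map_one' := rfl
  map_mul' _ _ := rfl

/-- the dilation endomorphisms -/
def dlQ (t : ℤ) : QG d G →* QG d G where
  toFun p := ⟨fun a => p.fn (dl t a), t * p.sf⟩
  map_one' := by
    ext a
    · rfl
    · simp
  map_mul' p q := by
    ext a
    · simp only [mul_fn, sh_dl]
    · simp only [mul_sf, mul_add]

@[simp] theorem dlQ_fn (t : ℤ) (p : QG d G) (a : Ix d) : (dlQ t p).fn a = p.fn (dl t a) := rfl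
@[simp] theorem dlQ_sf (t : ℤ) (p : QG d G) : (dlQ t p).sf = t * p.sf := rfl

theorem dlQ_cst (t : ℤ) (x : G) : dlQ t (cst x : QG d G) = cst x := by
  ext a
  · rfl
  · simp [cst]

theorem dlQ_pw (t : ℤ) (x : G) : dlQ t (pw x 1 : QG d G) = pw x 1 ^ t := by
  rw [pw_zpow]
  ext a
  · simp only [dlQ_fn, pw, rv_dl, mul_one]
  · simp [pw]

theorem zpow_fn_of_sf {p : QG d G} (hp : p.sf = 0) (m : ℤ) (a : Ix d) :
    (p ^ m).fn a = p.fn a ^ m ∧ (p ^ m).sf = 0 := by
  have hnat : ∀ n : ℕ, (p ^ n).fn a = p.fn a ^ n ∧ (p ^ n).sf = 0 := by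
    intro n
    induction n with
    | zero => simp
    | succ n ih =>
      refine ⟨?_, ?_⟩
      · rw [pow_succ, mul_fn, ih.1, ih.2, sh_zero_left, pow_succ]
      · rw [pow_succ, mul_sf, ih.2, hp, add_zero]
  obtain ⟨n, rfl | rfl⟩ := m.eq_nat_or_neg
  · simpa using hnat n
  · rw [zpow_neg, zpow_natCast, zpow_neg, zpow_natCast]
    refine ⟨?_, ?_⟩
    · rw [inv_fn, (hnat n).2, neg_zero, sh_zero_left, (hnat n).1]
    · rw [inv_sf, (hnat n).2, neg_zero]

theorem dlQ_ln (t : ℤ) (u : G) : dlQ t (ln u : QG d G) = ln u ^ t := by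
  have h := fun a => zpow_fn_of_sf (d := d) (p := ln u) rfl t a
  ext a
  · rw [(h a).1]
    simp only [dlQ_fn, ln, dl]
    rw [← zpow_mul]
    congr 1
    simp [mul_comm]
  · rw [(h 0).2]
    simp [ln]

/-! ## Polynomial maps -/

/-- `h : Ix d → G` is a polynomial map of level `k`, tested on `n` derivatives (filtration
`F_0 = F_1 = G`, `F_k = L_{k-1}`, the lower central series `L_0 = G`, `L_1 = [G, G]`, ...). -/
def PN : ℕ → ℕ → (Ix d → G) → Prop
  | 0, k, h => ∀ a, h a ∈ L G (k - 1)
  | n + 1, k, h => (∀ a, h a ∈ L G (k - 1)) ∧ ∀ m : Ix d, PN n (k + 1) (fun a => h (a + m) * (h a)⁻¹)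

/-- polynomial maps -/
def Pl (h : Ix d → G) : Prop := ∀ n, PN n 0 h

/-- `q : Ix d → B` has degree at most `n`, `B` an abelian group -/
def DG {B : Type} [AddCommGroup B] : ℕ → (Ix d → B) → Prop
  | 0, q => ∀ a m, q (a + m) = q a
  | n + 1, q => ∀ m, DG n (fun a => q (a + m) - q a)

/-- products of binomial coefficients -/
def bi (a : Ix d) (α : Fin (d + 1) → ℕ) : ℤ := ∏ e, Ring.choose (a e) (α e)

/-- exponents of degree at most `n` -/
def ex (d n : ℕ) : Finset (Fin (d + 1) → ℕ) :=
  (Fintype.piFinset fun _ => Finset.range (n + 1)).filter fun α => ∑ e, α e ≤ n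

/-- the group generated by all pairs with a polynomial first component -/
def Qs (d : ℕ) (G : Type) [Group G] : Subgroup (QG d G) := Subgroup.closure {q | Pl q.fn}

/-! ## The graded pieces `L_i / L_{i+1}` -/

section graded

variable (G) in
/-- `L_i / L_{i+1}`, written additively -/
abbrev Gr (i : ℕ) := Additive (L G i ⧸ (L G (i + 1)).subgroupOf (L G i))

instance instCommGr (i : ℕ) : CommGroup (L G i ⧸ (L G (i + 1)).subgroupOf (L G i)) :=
  { (inferInstance : Group (L G i ⧸ (L G (i + 1)).subgroupOf (L G i))) with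
    mul_comm := by
      intro x y
      obtain ⟨x, rfl⟩ := QuotientGroup.mk_surjective x
      obtain ⟨y, rfl⟩ := QuotientGroup.mk_surjective y
      refine QuotientGroup.eq.2 ?_
      rw [Subgroup.mem_subgroupOf]
      have h1 : (((x * y)⁻¹ * (y * x) : L G i) : G) = ⁅(y : G)⁻¹, (x : G)⁻¹⁆ := by
        rw [commutatorElement_def]
        push_cast
        group
      rw [h1]
      exact comm_mem (inv_mem y.2) _ }

open Classical in
/-- the class of `x ∈ L_i` in `L_i / L_{i+1}` (and `0` outside `L_i`) -/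
noncomputable def grm (i : ℕ) (x : G) : Gr G i :=
  if h : x ∈ L G i then Additive.ofMul (QuotientGroup.mk ⟨x, h⟩) else 0

theorem grm_mul {i : ℕ} {x y : G} (hx : x ∈ L G i) (hy : y ∈ L G i) :
    grm i (x * y) = grm i x + grm i y := by
  rw [grm, grm, grm, dif_pos hx, dif_pos hy, dif_pos (mul_mem hx hy)]
  rfl

theorem grm_eq_zero {i : ℕ} {x : G} (hx : x ∈ L G i) : grm i x = 0 ↔ x ∈ L G (i + 1) := by
  rw [grm, dif_pos hx]
  have h1 : (Additive.ofMul (QuotientGroup.mk ⟨x, hx⟩ :
      L G i ⧸ (L G (i + 1)).subgroupOf (L G i)) : Gr G i) = 0 ↔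
      (QuotientGroup.mk ⟨x, hx⟩ : L G i ⧸ (L G (i + 1)).subgroupOf (L G i)) = 1 := Iff.rfl
  rw [h1, QuotientGroup.eq_one_iff, Subgroup.mem_subgroupOf]

theorem grm_one (i : ℕ) : grm i (1 : G) = 0 := (grm_eq_zero (one_mem _)).2 (one_mem _)

theorem grm_inv {i : ℕ} {x : G} (hx : x ∈ L G i) : grm i x⁻¹ = - grm i x := by
  have h := grm_mul hx (inv_mem hx)
  rw [mul_inv_cancel, grm_one] at h
  exact (neg_eq_of_add_eq_zero_right h.symm).symm

theorem grm_zpow {i : ℕ} {x : G} (hx : x ∈ L G i) (m : ℤ) : grm i (x ^ m) = m • grm i x := by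
  have hnat : ∀ n : ℕ, grm i (x ^ n) = n • grm i x := by
    intro n
    induction n with
    | zero => rw [pow_zero, grm_one, zero_smul]
    | succ n ih => rw [pow_succ, grm_mul (pow_mem hx n) hx, ih, succ_nsmul]
  obtain ⟨n, rfl | rfl⟩ := m.eq_nat_or_neg
  · rw [zpow_natCast, hnat, natCast_zsmul]
  · rw [zpow_neg, zpow_natCast, grm_inv (pow_mem hx n), hnat, neg_smul, natCast_zsmul]

theorem grm_surj {i : ℕ} (b : Gr G i) : ∃ x ∈ L G i, grm i x = b := by
  obtain ⟨⟨x, hx⟩, hxb⟩ := QuotientGroup.mk_surjective (Additive.toMul b)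
  refine ⟨x, hx, ?_⟩
  rw [grm, dif_pos hx, hxb]
  rfl

theorem grm_eq_iff {i : ℕ} {x y : G} (hx : x ∈ L G i) (hy : y ∈ L G i) :
    grm i x = grm i y ↔ x * y⁻¹ ∈ L G (i + 1) := by
  rw [← grm_eq_zero (mul_mem hx (inv_mem hy)), grm_mul hx (inv_mem hy), grm_inv hy,
    ← sub_eq_add_neg, sub_eq_zero]

end graded

/-! ## Orbit closures and paths, for a general topological group -/

section orb

variable {Q : Type} [Group Q] [TopologicalSpace Q]

/-- the closure of `S x Λ` -/
def OC (S Λ : Subgroup Q) (x : Q) : Set Q := closure {z | ∃ s ∈ S, ∃ l ∈ Λ, z = s * x * l}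

/-- `h` is joined to `1` by a path in `H` -/
def JIn (H : Subgroup Q) (h : Q) : Prop :=
  ∃ γ : unitInterval → Q, Continuous γ ∧ γ 0 = 1 ∧ γ 1 = h ∧ ∀ t, γ t ∈ H

end orb

end Pool.Agent.Q185.NP
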