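import Pool.Agent.Q185.NP.Stm

/-!
# Project NP: the end game, part A (characters of `H`)
-/

set_option autoImplicit false
set_option linter.unusedSectionVars false

namespace Pool.Agent.Q185.NP

open Q70.Nil Topology Filter Set
open scoped commutatorElement

section chi

variable {Q : Type} [Group Q] {H : Subgroup Q} {χ : Q → Circle}

theorem chi_one (hm : ∀ x ∈ H, ∀ y ∈ H, χ (x * y) = χ x * χ y) : χ 1 = 1 := by
  have := hm 1 (one_mem _) 1 (one_mem _)
  rw [mul_one] at this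
  exact left_eq_mul.1 this

theorem chi_inv (hm : ∀ x ∈ H, ∀ y ∈ H, χ (x * y) = χ x * χ y) {x : Q} (hx : x ∈ H) :
    χ x⁻¹ = (χ x)⁻¹ := by
  have := hm x hx x⁻¹ (inv_mem hx)
  rw [mul_inv_cancel, chi_one hm] at this
  exact (inv_eq_of_mul_eq_one_right this.symm).symm

theorem chi_zpow (hm : ∀ x ∈ H, ∀ y ∈ H, χ (x * y) = χ x * χ y) {x : Q} (hx : x ∈ H) (m : ℤ) :
    χ (x ^ m) = χ x ^ m := by
  have hnat : ∀ n : ℕ, χ (x ^ n) = χ x ^ n := by
    intro n
    induction n with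
    | zero => rw [pow_zero, pow_zero, chi_one hm]
    | succ n ih => rw [pow_succ, pow_succ, hm _ (pow_mem hx n) _ hx, ih]
  obtain ⟨n, rfl | rfl⟩ := m.eq_nat_or_neg
  · rw [zpow_natCast, zpow_natCast, hnat]
  · rw [zpow_neg, zpow_neg, zpow_natCast, zpow_natCast, chi_inv hm (pow_mem hx n), hnat]

theorem chi_comm (hm : ∀ x ∈ H, ∀ y ∈ H, χ (x * y) = χ x * χ y) {x y : Q} (hx : x ∈ H)
    (hy : y ∈ H) : χ ⁅x, y⁆ = 1 := by
  rw [commutatorElement_def, hm _ (mul_mem (mul_mem hx hy) (inv_mem hx)) _ (inv_mem hy),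
    hm _ (mul_mem hx hy) _ (inv_mem hx), hm _ hx _ hy, chi_inv hm hx, chi_inv hm hy]
  rw [mul_comm (χ x) (χ y), mul_inv_cancel_right, mul_inv_cancel]

theorem chi_list (hm : ∀ x ∈ H, ∀ y ∈ H, χ (x * y) = χ x * χ y) (l : List Q) (hl : ∀ x ∈ l, x ∈ H) :
    l.prod ∈ H ∧ χ l.prod = (l.map χ).prod := by
  induction l with
  | nil => exact ⟨one_mem _, by simpa using chi_one hm⟩
  | cons a l ih =>
    have h1 := ih fun x hx => hl x (List.mem_cons_of_mem a hx)
    have ha := hl a List.mem_cons_self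
    refine ⟨by rw [List.prod_cons]; exact mul_mem ha h1.1, ?_⟩
    rw [List.prod_cons, List.map_cons, List.prod_cons, hm a ha _ h1.1, h1.2]

end chi

section paths

theorem exp_pi_ne_one : Circle.exp Real.pi ≠ 1 := by
  intro h9
  have h10 := congrArg (fun z : Circle => (z : ℂ)) h9
  simp at h10
  norm_num [Complex.ext_iff] at h10

/-- a path of roots of unity of bounded order is constant -/
theorem path_torsion (τ : unitInterval → Circle) (hτ : Continuous τ) (h0 : τ 0 = 1) (M : ℕ)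
    (hM : 0 < M) (h : ∀ t, τ t ^ M = 1) (t : unitInterval) : τ t = 1 := by
  by_contra hne
  obtain ⟨n₀, hn₀⟩ := eventually_atTop.1 (circle_path τ hτ 0 t h0 hne)
  obtain ⟨u, -, -, hu⟩ := hn₀ (M * n₀) (Nat.le_mul_of_pos_left _ hM)
  rw [pow_mul, h, one_pow] at hu
  exact exp_pi_ne_one hu.symm

end paths

section grp

variable {G : Type} [Group G]

theorem zpow_mul_zpow_mem {i : ℕ} {x y : G} (hx : x ∈ L G i) (hy : y ∈ L G i) (m : ℤ) :
    (x * y) ^ m * (x ^ m * y ^ m)⁻¹ ∈ L G (i + 1) := by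
  rw [← grm_eq_iff (zpow_mem (mul_mem hx hy) m) (mul_mem (zpow_mem hx m) (zpow_mem hy m)),
    grm_zpow (mul_mem hx hy), grm_mul hx hy, grm_mul (zpow_mem hx m) (zpow_mem hy m),
    grm_zpow hx, grm_zpow hy, smul_add]

theorem comm_zpow_mem {i : ℕ} {x : G} (hx : x ∈ L G i) (c : G) (m : ℤ) :
    ⁅x, c⁆ ^ m * ⁅x ^ m, c⁆⁻¹ ∈ L G (i + 2) := by
  have hadd : ∀ x ∈ L G i, ∀ y ∈ L G i,
      grm (i + 1) ⁅x * y, c⁆ = grm (i + 1) ⁅x, c⁆ + grm (i + 1) ⁅y, c⁆ := by
    intro x hx y hy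
    have h1 := comm_mem hx c
    have h2 := comm_mem hy c
    have h3 : ⁅x, ⁅y, c⁆⁆ ∈ L G (i + 2) := comm_mem' h2 x
    rw [comm_mul_left, grm_mul (mul_mem (L_succ_le _ h3) h2) h1, grm_mul (L_succ_le _ h3) h2,
      (grm_eq_zero (L_succ_le _ h3)).2 h3, zero_add, add_comm (grm (i + 1) ⁅y, c⁆)]
  have hone : grm (i + 1) ⁅(1 : G), c⁆ = 0 := by rw [commutatorElement_one_left, grm_one]
  have hnat : ∀ n : ℕ, grm (i + 1) ⁅x ^ n, c⁆ = n • grm (i + 1) ⁅x, c⁆ := by
    intro n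
    induction n with
    | zero => rw [pow_zero, hone, zero_smul]
    | succ n ih => rw [pow_succ, hadd _ (pow_mem hx n) _ hx, ih, succ_nsmul]
  have hz : grm (i + 1) ⁅x ^ m, c⁆ = m • grm (i + 1) ⁅x, c⁆ := by
    obtain ⟨n, rfl | rfl⟩ := m.eq_nat_or_neg
    · rw [zpow_natCast, hnat, natCast_zsmul]
    · have h := hadd _ (pow_mem hx n) _ (inv_mem (pow_mem hx n))
      rw [mul_inv_cancel, hone, hnat] at h
      rw [zpow_neg, zpow_natCast, neg_smul, natCast_zsmul]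
      exact eq_neg_of_add_eq_zero_right h.symm
  rw [← grm_eq_iff (zpow_mem (comm_mem hx c) m) (comm_mem (zpow_mem hx m) c), hz,
    grm_zpow (comm_mem hx c)]

theorem grm_list {i : ℕ} (l : List G) (hl : ∀ x ∈ l, x ∈ L G i) :
    l.prod ∈ L G i ∧ grm i l.prod = (l.map (grm i)).sum := by
  induction l with
  | nil => exact ⟨one_mem _, by simpa using grm_one i⟩
  | cons a l ih =>
    have h1 := ih fun x hx => hl x (List.mem_cons_of_mem a hx)
    have ha := hl a List.mem_cons_self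
    refine ⟨by rw [List.prod_cons]; exact mul_mem ha h1.1, ?_⟩
    rw [List.prod_cons, List.map_cons, List.sum_cons, grm_mul ha h1.1, h1.2]

theorem list_prod_fn {d : ℕ} (l : List (QG d G)) (hl : ∀ p ∈ l, p.sf = 0) :
    l.prod.sf = 0 ∧ ∀ a, l.prod.fn a = (l.map fun p => p.fn a).prod := by
  induction l with
  | nil => exact ⟨rfl, fun a => rfl⟩
  | cons p l ih =>
    have h1 := ih fun x hx => hl x (List.mem_cons_of_mem p hx)
    have hp := hl p List.mem_cons_self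
    refine ⟨by rw [List.prod_cons, mul_sf, hp, h1.1, add_zero], fun a => ?_⟩
    rw [List.prod_cons, mul_fn, hp, sh_zero_left, h1.2, List.map_cons, List.prod_cons]

end grp

section setting

variable {G : Type} [Group G] [TopologicalSpace G] [IsTopologicalGroup G] {Γ : Subgroup G} {g : G}

theorem Nd.comm_NN (hN : Nd Γ g) (x y : G) : ⁅x, y⁆ ∈ NN G := by
  obtain ⟨n, hn, k, rfl⟩ := hN.gen x
  obtain ⟨n', hn', k', rfl⟩ := hN.gen y
  have hq : ∀ {m : G}, m ∈ NN G → (QuotientGroup.mk' (NN G)) m = 1 := fun hm =>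
    (QuotientGroup.eq_one_iff _).2 hm
  have h1 : (QuotientGroup.mk' (NN G)) ⁅n * g ^ k, n' * g ^ k'⁆ = 1 := by
    rw [map_commutatorElement, map_mul, map_mul, hq hn, hq hn', one_mul, one_mul, map_zpow, map_zpow,
      commutatorElement_eq_one_iff_commute]
    exact (Commute.refl _).zpow_zpow k k'
  exact (QuotientGroup.eq_one_iff _).1 h1

theorem Nd.L_le (hN : Nd Γ g) {i : ℕ} (hi : 1 ≤ i) : L G i ≤ NN G := by
  have h1 : L G 1 ≤ NN G := by
    change ⁅(⊤ : Subgroup G), (⊤ : Subgroup G)⁆ ≤ NN G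
    rw [Subgroup.commutator_le]
    exact fun x _ y _ => hN.comm_NN x y
  exact le_trans (Subgroup.lowerCentralSeries_antitone _ hi) h1

/-- a continuous homomorphism to the circle trivial on `Γ` and at `g` is trivial -/
theorem Nd.hom_one (hN : Nd Γ g) {φ : G → Circle} (h : ∀ x y, φ (x * y) = φ x * φ y)
    (hc : Continuous φ) (hΓ : ∀ γ ∈ Γ, φ γ = 1) (hg : φ g = 1) (x : G) : φ x = 1 := by
  by_contra hcon
  obtain ⟨n, γ, hγ, hn⟩ := hN.min 1 {x | φ x ≠ 1} (isOpen_ne_fun hc continuous_const) ⟨x, hcon⟩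
  apply hn
  rw [mul_one, h, hΓ γ hγ, mul_one]
  exact zpow_of_mul h g n hg

variable {d : ℕ}

theorem cst_mem_HH (x : G) : (cst x : QG d G) ∈ HH d g :=
  Subgroup.subset_closure (Or.inl (Or.inl ⟨x, rfl⟩))

theorem pw_mem_HH {u : G} (hu : u ∈ NN G) : (pw (u * g) 1 : QG d G) ∈ HH d g :=
  Subgroup.subset_closure (Or.inl (Or.inr ⟨u, hu, rfl⟩))

theorem pw_self_mem_HH : (pw g 1 : QG d G) ∈ HH d g := by
  have := pw_mem_HH (d := d) (g := g) (one_mem (NN G))
  rwa [one_mul] at this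

theorem ln_mem_HH {u : G} (hu : u ∈ NN G) : (ln u : QG d G) ∈ HH d g :=
  Subgroup.subset_closure (Or.inr ⟨u, hu, rfl⟩)

theorem dlQ_mem_HH (t : ℤ) {h : QG d G} (hh : h ∈ HH d g) : dlQ t h ∈ HH d g := by
  have hle : HH d g ≤ (HH d g).comap (dlQ t) := by
    refine (Subgroup.closure_le _).2 ?_
    rintro _ ((⟨x, rfl⟩ | ⟨u, hu, rfl⟩) | ⟨u, hu, rfl⟩)
    · rw [SetLike.mem_coe, Subgroup.mem_comap, dlQ_cst]; exact cst_mem_HH x
    · rw [SetLike.mem_coe, Subgroup.mem_comap, dlQ_pw]; exact zpow_mem (pw_mem_HH hu) t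
    · rw [SetLike.mem_coe, Subgroup.mem_comap, dlQ_ln]; exact zpow_mem (ln_mem_HH hu) t
  exact hle hh

theorem HH_le_Pl (hA : S_A1) (hP : S_POW) {h : QG d G} (hh : h ∈ HH d g) : Pl h.fn := by
  rw [← mem_Qs hA]
  have hle : HH d g ≤ Qs d G := by
    refine (Subgroup.closure_le _).2 ?_
    have hadd : ∀ (q : Ix d → ℤ), (∀ a b, q (a + b) = q a + q b) → DG 1 q := by
      intro q hq m a m'
      simp only [hq]
      ring
    rintro _ ((⟨x, rfl⟩ | ⟨u, hu, rfl⟩) | ⟨u, hu, rfl⟩)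
    · exact (mem_Qs hA _).2 ((hA G d).2.2.2 x)
    · exact (mem_Qs hA _).2 (hP G d 0 _ (L_zero_mem _) _ (hadd _ fun a b => rv_add a b 1))
    · exact (mem_Qs hA _).2 (hP G d 0 _ (L_zero_mem _) _ (hadd _ fun a b => rfl))
  exact hle hh

end setting

end Pool.Agent.Q185.NP
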