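import Pool.Agent.Q185.NP.EA

/-!
# Project NP: the end game, part B (characters of `H`)
-/

set_option autoImplicit false
set_option linter.unusedSectionVars false

namespace Pool.Agent.Q185.NP

open Q70.Nil Topology Filter Set
open scoped commutatorElement

/-- the standing data of this file -/
structure Ed {G : Type} [Group G] [TopologicalSpace G] [IsTopologicalGroup G] (Γ : Subgroup G)
    (g : G) (d : ℕ) (χ : QG d G → Circle) : Prop where
  nd : Nd Γ g
  cont : ContinuousOn χ (HH d g)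
  mul : ∀ x ∈ HH d g, ∀ y ∈ HH d g, χ (x * y) = χ x * χ y
  cg : χ (cst g) = 1
  pg : χ (pw g 1) = 1
  lam : ∀ h ∈ HH d g, h ∈ Lam d Γ → χ h = 1

section

variable {G : Type} [Group G] [TopologicalSpace G] [IsTopologicalGroup G] {Γ : Subgroup G} {g : G}
  {d : ℕ} {χ : QG d G → Circle}

theorem continuous_cst : Continuous (cst : G → QG d G) :=
  continuous_QG (fun _ => continuous_id) continuous_const

theorem continuous_ln : Continuous (ln : G → QG d G) :=
  continuous_QG (fun a => continuous_zpow (a 0)) continuous_const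

theorem continuous_pw (m : ℤ) : Continuous (fun x : G => (pw x m : QG d G)) :=
  continuous_QG (fun a => continuous_zpow (rv a m)) continuous_const

theorem Ed.cst_one (hE : Ed Γ g d χ) (x : G) : χ (cst x) = 1 := by
  refine hE.nd.hom_one (φ := fun x => χ (cst x)) (fun x y => ?_) ?_ (fun γ hγ => ?_) hE.cg x
  · exact hE.mul _ (cst_mem_HH x) _ (cst_mem_HH y)
  · exact hE.cont.comp_continuous continuous_cst fun x => cst_mem_HH x
  · exact hE.lam _ (cst_mem_HH γ) fun _ => hγ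

theorem Ed.chi_dl (hE : Ed Γ g d χ) (t : ℤ) {h : QG d G} (hh : h ∈ HH d g) :
    χ (dlQ t h) = χ h ^ t := by
  have key : h ∈ HH d g ∧ χ (dlQ t h) = χ h ^ t := by
    have hh' := hh
    rw [HH] at hh'
    induction hh' using Subgroup.closure_induction with
    | mem x hx =>
      rcases hx with (⟨x, rfl⟩ | ⟨u, hu, rfl⟩) | ⟨u, hu, rfl⟩
      · exact ⟨cst_mem_HH x, by rw [dlQ_cst, hE.cst_one, one_zpow]⟩
      · exact ⟨pw_mem_HH hu, by rw [dlQ_pw, chi_zpow hE.mul (pw_mem_HH hu)]⟩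
      · exact ⟨ln_mem_HH hu, by rw [dlQ_ln, chi_zpow hE.mul (ln_mem_HH hu)]⟩
    | one => exact ⟨one_mem _, by rw [map_one, chi_one hE.mul, one_zpow]⟩
    | mul x y hx hy hx' hy' =>
      have h1 := hx' (by exact hx)
      have h2 := hy' (by exact hy)
      refine ⟨mul_mem h1.1 h2.1, ?_⟩
      rw [map_mul, hE.mul _ (dlQ_mem_HH t h1.1) _ (dlQ_mem_HH t h2.1), h1.2, h2.2,
        hE.mul _ h1.1 _ h2.1, mul_zpow]
    | inv x hx hx' =>
      have h1 := hx' (by exact hx)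
      refine ⟨inv_mem h1.1, ?_⟩
      rw [map_inv, chi_inv hE.mul (dlQ_mem_HH t h1.1), h1.2, chi_inv hE.mul h1.1, inv_zpow]
  exact key.2

/-- `χ ^ M = 1` on the elements of `H` with values in `L_i` -/
def TP (g : G) (d : ℕ) (χ : QG d G → Circle) (i M : ℕ) : Prop :=
  ∀ h ∈ HH d g, h.sf = 0 → (∀ a, h.fn a ∈ L G i) → χ h ^ M = 1

theorem Ed.congr (hE : Ed Γ g d χ) {i M : ℕ} (hT : TP g d χ i M) {p q : QG d G}
    (hp : p ∈ HH d g) (hq : q ∈ HH d g) (hp0 : p.sf = 0) (hq0 : q.sf = 0)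
    (h : ∀ a, p.fn a * (q.fn a)⁻¹ ∈ L G i) : χ p ^ M = χ q ^ M := by
  have h1 := hT (p * q⁻¹) (mul_mem hp (inv_mem hq)) (by simp [hp0, hq0]) (fun a => by
    simp only [mul_fn, inv_fn, hp0, hq0, neg_zero, sh_zero_left]
    exact h a)
  rw [hE.mul _ hp _ (inv_mem hq), chi_inv hE.mul hq, mul_pow, inv_pow, mul_inv_eq_one] at h1
  exact h1

theorem comm_ln_cst_fn (x c : G) (a : Ix d) :
    (⁅(ln x : QG d G), (cst c : QG d G)⁆).fn a = ⁅x ^ (a 0), c⁆ ∧
      (⁅(ln x : QG d G), (cst c : QG d G)⁆).sf = 0 := by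
  refine ⟨?_, ?_⟩
  · simp only [commutatorElement_def, mul_fn, inv_fn, mul_sf, inv_sf, ln, cst, add_zero, neg_zero,
      sh_zero_left]
  · simp only [commutatorElement_def, mul_sf, inv_sf, ln, cst, add_zero, neg_zero]

/-- step of the downward induction, for commutators with entries in `NN G` -/
theorem Ed.comm_case (hE : Ed Γ g d χ) {i M : ℕ} (hT : TP g d χ (i + 2) M) {x : G}
    (hx : x ∈ L G i) (hxN : x ∈ NN G) (c : G) : χ (ln ⁅x, c⁆) ^ M = 1 := by
  have hcN : ⁅x, c⁆ ∈ NN G := hE.nd.comm_NN x c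
  have h1 : χ (ln ⁅x, c⁆) ^ M = χ ⁅(ln x : QG d G), (cst c : QG d G)⁆ ^ M := by
    refine hE.congr hT (ln_mem_HH hcN) ?_ rfl (comm_ln_cst_fn x c 0).2 fun a => ?_
    · rw [commutatorElement_def]
      exact mul_mem (mul_mem (mul_mem (ln_mem_HH hxN) (cst_mem_HH c)) (inv_mem (ln_mem_HH hxN)))
        (inv_mem (cst_mem_HH c))
    · rw [(comm_ln_cst_fn x c a).1]
      exact comm_zpow_mem hx c (a 0)
  rw [h1, chi_comm hE.mul (ln_mem_HH hxN) (cst_mem_HH c), one_pow]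

theorem Ed.hm (hE : Ed Γ g d χ) {i M : ℕ} (hi : 1 ≤ i) (hT : TP g d χ (i + 1) M) :
    Hm i (fun u => χ (ln u) ^ M) where
  mul x hx y hy := by
    have hxN := hE.nd.L_le hi hx
    have hyN := hE.nd.L_le hi hy
    have h1 : χ (ln (x * y)) ^ M = χ (ln x * ln y) ^ M := by
      refine hE.congr hT (ln_mem_HH (mul_mem hxN hyN)) (mul_mem (ln_mem_HH hxN) (ln_mem_HH hyN)) rfl
        rfl fun a => ?_
      simp only [mul_fn, ln, sh_zero_left]
      exact zpow_mul_zpow_mem hx hy (a 0)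
    rw [h1, hE.mul _ (ln_mem_HH hxN) _ (ln_mem_HH hyN), mul_pow]
  triv x hx := by
    have hxN := hE.nd.L_le (by omega : 1 ≤ i + 1) hx
    exact hT _ (ln_mem_HH hxN) rfl fun a => zpow_mem hx _

theorem Ed.ln_case (hE : Ed Γ g d χ) {i M : ℕ} (hT : TP g d χ (i + 2) M) {u : G}
    (hu : u ∈ L G (i + 1)) : χ (ln u) ^ M = 1 := by
  have hf := hE.hm (i := i + 1) (by omega) hT
  refine hf.eq_one (fun x hx c => ?_) u hu
  by_cases hi : 1 ≤ i
  · exact hE.comm_case hT hx (hE.nd.L_le hi hx) c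
  · have hi0 : i = 0 := by omega
    subst hi0
    have hNc : ∀ n ∈ NN G, ∀ c : G, χ (ln ⁅n, c⁆) ^ M = 1 := fun n hn c =>
      hE.comm_case hT (L_zero_mem n) hn c
    have hcN : ∀ n ∈ NN G, ∀ c : G, χ (ln ⁅c, n⁆) ^ M = 1 := by
      intro n hn c
      have h1 := hf.inv (comm_mem (L_zero_mem n) c)
      simp only [commutatorElement_inv] at h1
      rw [h1, hNc n hn c, inv_one]
    have hleft := hf.comm_left c
    obtain ⟨n, hn, k, rfl⟩ := hE.nd.gen x
    have h1 : χ (ln ⁅n * g ^ k, c⁆) ^ M = χ (ln ⁅n, c⁆) ^ M * χ (ln ⁅g ^ k, c⁆) ^ M :=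
      mul_of_Hm0 hleft n (g ^ k)
    have h2 : χ (ln ⁅g, c⁆) ^ M = 1 := by
      obtain ⟨n', hn', k', rfl⟩ := hE.nd.gen c
      have h3 : χ (ln ⁅g, n' * g ^ k'⁆) ^ M = χ (ln ⁅g, n'⁆) ^ M * χ (ln ⁅g, g ^ k'⁆) ^ M :=
        hf.comm_right (L_zero_mem g) n' (g ^ k')
      have h4 : ⁅g, g ^ k'⁆ = 1 := by
        rw [commutatorElement_eq_one_iff_commute]
        exact Commute.self_zpow g k'
      rw [h3, hcN n' hn' g, one_mul, h4]
      exact hf.one
    have h5 : χ (ln ⁅g ^ k, c⁆) ^ M = 1 := zpow_of_mul (mul_of_Hm0 hleft) g k h2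
    rw [h1, hNc n hn c, one_mul, h5]

/-- the word used in the extraction -/
noncomputable def wd (W : ℕ) (c : ℕ → ℤ) (h : QG d G) : QG d G :=
  ((List.range W).map fun t : ℕ => dlQ (t : ℤ) h ^ c t).prod

theorem wd_fn (W : ℕ) (c : ℕ → ℤ) {h : QG d G} (h0 : h.sf = 0) : (wd W c h).sf = 0 ∧
    ∀ a, (wd W c h).fn a = ((List.range W).map fun t : ℕ => h.fn (dl (t : ℤ) a) ^ c t).prod := by
  have hd : ∀ t : ℕ, (dlQ (t : ℤ) h).sf = 0 := fun t => by rw [dlQ_sf, h0, mul_zero]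
  have h1 := list_prod_fn (((List.range W).map fun t : ℕ => dlQ (t : ℤ) h ^ c t)) (by
    intro p hp
    obtain ⟨t, -, rfl⟩ := List.mem_map.1 hp
    exact (zpow_fn_of_sf (hd t) (c t) 0).2)
  refine ⟨h1.1, fun a => ?_⟩
  rw [wd, h1.2, List.map_map]
  congr 1
  refine List.map_congr_left fun t _ => ?_
  simp only [Function.comp]
  rw [(zpow_fn_of_sf (hd t) (c t) a).1, dlQ_fn]

theorem wd_mem (W : ℕ) (c : ℕ → ℤ) {h : QG d G} (hh : h ∈ HH d g) : wd W c h ∈ HH d g := by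
  refine Subgroup.list_prod_mem _ fun p hp => ?_
  obtain ⟨t, -, rfl⟩ := List.mem_map.1 hp
  exact zpow_mem (dlQ_mem_HH _ hh) _

theorem list_zpow_sum (z : Circle) (l : List ℕ) (e : ℕ → ℤ) :
    (l.map fun t => z ^ e t).prod = z ^ (l.map e).sum := by
  induction l with
  | nil => simp
  | cons a l ih => rw [List.map_cons, List.prod_cons, List.map_cons, List.sum_cons, zpow_add, ih]

theorem Ed.wd_chi (hE : Ed Γ g d χ) {W : ℕ} {c : ℕ → ℤ} {N : ℕ}
    (hN : ∑ t ∈ Finset.range W, c t * (t : ℤ) = N) {h : QG d G} (hh : h ∈ HH d g) :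
    χ (wd W c h) = χ h ^ N := by
  have h1 := (chi_list hE.mul (((List.range W).map fun t : ℕ => dlQ (t : ℤ) h ^ c t)) (by
    intro p hp
    obtain ⟨t, -, rfl⟩ := List.mem_map.1 hp
    exact zpow_mem (dlQ_mem_HH _ hh) _)).2
  rw [wd, h1, List.map_map]
  have h2 : ((List.range W).map (χ ∘ fun t : ℕ => dlQ (t : ℤ) h ^ c t)) =
      (List.range W).map fun t : ℕ => χ h ^ (c t * (t : ℤ)) := by
    refine List.map_congr_left fun t _ => ?_
    simp only [Function.comp]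
    rw [chi_zpow hE.mul (dlQ_mem_HH _ hh), hE.chi_dl _ hh, ← zpow_mul, mul_comm]
  rw [h2, list_zpow_sum, ← zpow_natCast, ← hN]
  rfl

theorem Ed.step (hA : S_A1) (hP : S_POW) (hX : S_EX) (hE : Ed Γ g d χ) {i M : ℕ} (hM : 0 < M)
    (hT : TP g d χ (i + 2) M) : ∃ M', 0 < M' ∧ TP g d χ (i + 1) M' := by
  obtain ⟨W, c, N, hN, hNs, hX⟩ := hX d (i + 1)
  refine ⟨N * M, Nat.mul_pos hN hM, fun h hh h0 hv => ?_⟩
  obtain ⟨u, hu, hua⟩ := hX G (L G (i + 1)) le_rfl h.fn (HH_le_Pl hA hP hh) hv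
  have huN : u ∈ NN G := hE.nd.L_le (by omega) hu
  have h1 : χ (wd W c h) ^ M = χ (ln u) ^ M := by
    refine hE.congr hT (wd_mem W c hh) (ln_mem_HH huN) (wd_fn W c h0).1 rfl fun a => ?_
    rw [(wd_fn W c h0).2]
    exact hua a
  rw [pow_mul, ← hE.wd_chi hNs hh, h1]
  exact hE.ln_case hT hu

theorem Ed.torsion (hA : S_A1) (hP : S_POW) (hX : S_EX) (hE : Ed Γ g d χ) :
    ∃ M, 0 < M ∧ TP g d χ 1 M := by
  obtain ⟨n, hn⟩ := Subgroup.nilpotent_iff_lowerCentralSeries.1 hE.nd.nil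
  have key : ∀ j i : ℕ, n ≤ i + 1 + j → ∃ M, 0 < M ∧ TP g d χ (i + 1) M := by
    intro j
    induction j with
    | zero =>
      intro i hi
      refine ⟨1, one_pos, fun h _ h0 hv => ?_⟩
      have hbot : L G (i + 1) = ⊥ :=
        le_bot_iff.1 ((Subgroup.lowerCentralSeries_antitone _ (by omega : n ≤ i + 1)).trans hn.le)
      have : h = 1 := by
        ext a
        · have := hv a
          rw [hbot, Subgroup.mem_bot] at this
          rw [this, one_fn]
        · rw [h0, one_sf]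
      rw [this, chi_one hE.mul, one_pow]
    | succ j ih =>
      intro i hi
      obtain ⟨M, hM, hT⟩ := ih (i + 1) (by omega)
      exact hE.step hA hP hX hM hT
  exact key n 0 (by omega)

end

end Pool.Agent.Q185.NP
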