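import Pool.Agent.Q185.NP.EB

/-!
# Project NP: the end game, part C (characters of `H`)
-/

set_option autoImplicit false
set_option linter.unusedSectionVars false

namespace Pool.Agent.Q185.NP

open Q70.Nil Topology Filter Set
open scoped commutatorElement

section

variable {G : Type} [Group G] [TopologicalSpace G] [IsTopologicalGroup G] {Γ : Subgroup G} {g : G}
  {d : ℕ} {χ : QG d G → Circle}

theorem mk_NN {m : G} (hm : m ∈ NN G) : (QuotientGroup.mk' (NN G)) m = 1 :=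
  (QuotientGroup.eq_one_iff _).2 hm

theorem NN_of_mk {m : G} (hm : (QuotientGroup.mk' (NN G)) m = 1) : m ∈ NN G :=
  (QuotientGroup.eq_one_iff _).1 hm

theorem Nd.trans (hN : Nd Γ g) (x : G) : ∃ v ∈ NN G, ∃ γ ∈ Γ, x = v * γ := by
  obtain ⟨n, hn, k, rfl⟩ := hN.gen x
  obtain ⟨u, hu, γ, hγ, hg⟩ := hN.fac
  refine ⟨n * g ^ k * (γ ^ k)⁻¹, NN_of_mk ?_, γ ^ k, zpow_mem hγ k, by group⟩
  have h1 : (QuotientGroup.mk' (NN G)) g = (QuotientGroup.mk' (NN G)) γ := by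
    rw [hg, map_mul, mk_NN hu, one_mul]
  rw [map_mul, map_mul, mk_NN hn, one_mul, map_inv, map_zpow, map_zpow, h1, mul_inv_cancel]

theorem Ed.ln_mul (hE : Ed Γ g d χ) {M : ℕ} (hT : TP g d χ 1 M) {x y : G} (hx : x ∈ NN G)
    (hy : y ∈ NN G) : χ (ln (x * y)) ^ M = χ (ln x) ^ M * χ (ln y) ^ M := by
  have h1 : χ (ln (x * y)) ^ M = χ (ln x * ln y) ^ M := by
    refine hE.congr hT (ln_mem_HH (mul_mem hx hy)) (mul_mem (ln_mem_HH hx) (ln_mem_HH hy)) rfl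
      rfl fun a => ?_
    simp only [mul_fn, ln, sh_zero_left]
    exact zpow_mul_zpow_mem (L_zero_mem x) (L_zero_mem y) (a 0)
  rw [h1, hE.mul _ (ln_mem_HH hx) _ (ln_mem_HH hy), mul_pow]

theorem Ed.ln_triv (hE : Ed Γ g d χ) {M : ℕ} (hT : TP g d χ 1 M) {x : G} (hx : x ∈ L G 1) :
    χ (ln x) ^ M = 1 :=
  hT _ (ln_mem_HH (hE.nd.L_le le_rfl hx)) rfl fun _ => zpow_mem hx _

theorem Ed.ln_congr (hE : Ed Γ g d χ) {M : ℕ} (hT : TP g d χ 1 M) {x y : G}
    (hy : y ∈ NN G) (h : x * y⁻¹ ∈ L G 1) : χ (ln x) ^ M = χ (ln y) ^ M := by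
  have h1 := hE.ln_mul hT (hE.nd.L_le le_rfl h) hy
  rw [inv_mul_cancel_right, hE.ln_triv hT h, one_mul] at h1
  exact h1

/-- a multiplicative function on `NN G`, trivial on `L_1`, `Γ ∩ NN G`, and at `u₀`, is trivial -/
theorem Nd.kappa (hN : Nd Γ g) {κ : G → Circle} (hm : ∀ x ∈ NN G, ∀ y ∈ NN G, κ (x * y) = κ x * κ y)
    (hL : ∀ x ∈ L G 1, κ x = 1) (hc : ContinuousOn κ (NN G)) (hΓ : ∀ x ∈ NN G, x ∈ Γ → κ x = 1)
    {u : G} (hu : u ∈ NN G) {γ₀ : G} (hγ₀ : γ₀ ∈ Γ) (hg : g = u * γ₀) (hu1 : κ u = 1) :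
    ∀ x ∈ NN G, κ x = 1 := by
  choose v hv γ hγ hx using hN.trans
  have hval : ∀ x, ∀ w ∈ NN G, ∀ δ ∈ Γ, x = w * δ → κ (v x) = κ w := by
    intro x w hw δ hδ hxw
    have h1 : w⁻¹ * v x = δ * (γ x)⁻¹ := by
      have h2 := (hx x).symm.trans hxw
      rw [inv_mul_eq_iff_eq_mul, ← mul_assoc, ← h2, mul_inv_cancel_right]
    have h3 : w⁻¹ * v x ∈ Γ := by rw [h1]; exact mul_mem hδ (inv_mem (hγ x))
    have h4 := hm w hw (w⁻¹ * v x) (mul_mem (inv_mem hw) (hv x))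
    rw [mul_inv_cancel_left, hΓ _ (mul_mem (inv_mem hw) (hv x)) h3, mul_one] at h4
    exact h4
  have hone : κ 1 = 1 := hL 1 (one_mem _)
  have hconj : ∀ w ∈ NN G, ∀ c : G, κ (c * w * c⁻¹) = κ w := by
    intro w hw c
    have h1 : c * w * c⁻¹ = ⁅c, w⁆ * w := by rw [commutatorElement_def]; group
    rw [h1, hm _ (hN.comm_NN c w) _ hw, hL _ (comm_mem (L_zero_mem c) w), one_mul]
  have hmul : ∀ x y, κ (v (x * y)) = κ (v x) * κ (v y) := by
    intro x y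
    have hconjN : γ x * v y * (γ x)⁻¹ ∈ NN G := Subgroup.Normal.conj_mem inferInstance _ (hv y) _
    have e : x * y = (v x * (γ x * v y * (γ x)⁻¹)) * (γ x * γ y) := by
      conv_lhs => rw [hx x, hx y]
      group
    rw [hval (x * y) _ (mul_mem (hv x) hconjN) _ (mul_mem (hγ x) (hγ y)) e, hm _ (hv x) _ hconjN,
      hconj _ (hv y)]
  have hNNv : ∀ x ∈ NN G, κ (v x) = κ x := fun x hx' => hval x x hx' 1 (one_mem _) (mul_one x).symm
  let Φ : G →* Circle := MonoidHom.mk' (fun x => κ (v x)) hmul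
  have hcont : Continuous Φ := by
    refine continuous_of_continuousAt_one Φ ?_
    have h1 : ContinuousAt κ 1 := (hc 1 (one_mem _)).continuousAt (hN.opn.mem_nhds (one_mem _))
    refine h1.congr ?_
    filter_upwards [hN.opn.mem_nhds (one_mem _)] with x hx'
    exact (hNNv x hx').symm
  have hΦ := fun x => hN.hom_one (φ := Φ) (fun x y => map_mul Φ x y) hcont (fun γ' hγ' => by
    change κ (v γ') = 1
    rw [hval γ' 1 (one_mem _) γ' hγ' (one_mul _).symm, hone]) (by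
    change κ (v g) = 1
    rw [hval g u hu γ₀ hγ₀ hg, hu1]) x
  intro x hx'
  rw [← hNNv x hx']
  exact hΦ x

theorem rv_single (t : ℤ) : rv (Pi.single 0 1 : Ix d) t = t := by
  unfold rv
  rw [Finset.sum_eq_single 0]
  · simp
  · intro e _ he
    simp [he]
  · simp

theorem Ed.final (hA : S_A1) (hP : S_POW) (hX : S_EX) (hE : Ed Γ g d χ) :
    ∀ h ∈ HH d g, χ h = 1 := by
  obtain ⟨M, hM, hT⟩ := hE.torsion hA hP hX
  obtain ⟨W, c, N, hN, hNs, hX⟩ := hX d 0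
  obtain ⟨u₀, hu₀, γ₀, hγ₀, hg⟩ := hE.nd.fac
  have hNle : NN G ≤ L G 0 := fun x _ => L_zero_mem x
  -- extraction
  have hext : ∀ h ∈ HH d g, h.sf = 0 → (∀ a, h.fn a ∈ NN G) → ∃ u ∈ NN G,
      χ h ^ (N * M) = χ (ln u) ^ M ∧
      ∀ a, ((List.range W).map fun t : ℕ => h.fn (dl (t : ℤ) a) ^ c t).prod * (u ^ (a 0))⁻¹ ∈
        L G 1 := by
    intro h hh h0 hv
    obtain ⟨u, hu, hua⟩ := hX G (NN G) hNle h.fn (HH_le_Pl hA hP hh) hv
    refine ⟨u, hu, ?_, hua⟩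
    rw [pow_mul, ← hE.wd_chi hNs hh]
    refine hE.congr hT (wd_mem W c hh) (ln_mem_HH hu) (wd_fn W c h0).1 rfl fun a => ?_
    rw [(wd_fn W c h0).2]
    exact hua a
  -- the special element
  have hγg : γ₀ = u₀⁻¹ * g := by rw [hg, inv_mul_cancel_left]
  have hpγ : (pw γ₀ 1 : QG d G) ∈ HH d g := by
    rw [hγg]
    exact pw_mem_HH (inv_mem hu₀)
  have hmk : (QuotientGroup.mk' (NN G)) g = (QuotientGroup.mk' (NN G)) γ₀ := by
    rw [hg, map_mul, mk_NN hu₀, one_mul]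
  set h₀ : QG d G := pw g 1 * (pw γ₀ 1)⁻¹ with hh₀
  have hh₀m : h₀ ∈ HH d g := mul_mem pw_self_mem_HH (inv_mem hpγ)
  have hh₀s : h₀.sf = 0 := rfl
  have hh₀f : ∀ a, h₀.fn a = g ^ rv a 1 * (γ₀ ^ rv a 1)⁻¹ := by
    intro a
    have h1 : h₀.fn a = g ^ rv a 1 * (γ₀ ^ rv (sh (-1) (sh 1 a)) 1)⁻¹ := rfl
    rw [h1, sh_sh, add_neg_cancel, sh_zero_left]
  have hh₀v : ∀ a, h₀.fn a ∈ NN G := by
    intro a
    refine NN_of_mk ?_
    rw [hh₀f, map_mul, map_inv, map_zpow, map_zpow, hmk, mul_inv_cancel]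
  have hχ₀ : χ h₀ = 1 := by
    rw [hh₀, hE.mul _ pw_self_mem_HH _ (inv_mem hpγ), chi_inv hE.mul hpγ, hE.pg,
      hE.lam _ hpγ (fun a => zpow_mem hγ₀ _), inv_one, mul_one]
  have hκ₀ : χ (ln u₀) ^ (M * N) = 1 := by
    obtain ⟨u, hu, hu1, hu2⟩ := hext h₀ hh₀m hh₀s hh₀v
    rw [hχ₀, one_pow] at hu1
    have h2 := hu2 (Pi.single 0 1)
    rw [Pi.single_eq_same, zpow_one] at h2
    have hgr : ∀ t : ℕ, grm 0 (h₀.fn (dl (t : ℤ) (Pi.single 0 1)) ^ c t) =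
        (c t * (t : ℤ)) • grm 0 u₀ := by
      intro t
      have h3 : h₀.fn (dl (t : ℤ) (Pi.single 0 1)) = g ^ (t : ℤ) * (γ₀ ^ (t : ℤ))⁻¹ := by
        rw [hh₀f, rv_dl, mul_one, rv_single]
      have h4 : grm 0 g = grm 0 u₀ + grm 0 γ₀ := by
        conv_lhs => rw [hg]
        exact grm_mul (L_zero_mem _) (L_zero_mem _)
      rw [h3, grm_zpow (L_zero_mem _), grm_mul (L_zero_mem _) (L_zero_mem _),
        grm_inv (L_zero_mem _), grm_zpow (L_zero_mem _), grm_zpow (L_zero_mem _), h4,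
        smul_add (t : ℤ), add_neg_cancel_right, smul_smul]
    have h5 := (grm_list ((List.range W).map fun t : ℕ =>
      h₀.fn (dl (t : ℤ) (Pi.single 0 1)) ^ c t) (fun x _ => L_zero_mem x)).2
    rw [List.map_map] at h5
    have h6 : ((List.range W).map (grm 0 ∘ fun t : ℕ =>
        h₀.fn (dl (t : ℤ) (Pi.single 0 1)) ^ c t)) =
        (List.range W).map fun t : ℕ => (c t * (t : ℤ)) • grm 0 u₀ :=
      List.map_congr_left fun t _ => hgr t
    have h7 : ((List.range W).map fun t : ℕ => (c t * (t : ℤ)) • grm 0 u₀).sum =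
        (N : ℤ) • grm 0 u₀ := by
      rw [← hNs, Finset.sum_smul]
      rfl
    rw [h6, h7] at h5
    have h8 : grm 0 u = (N : ℤ) • grm 0 u₀ := by
      rw [← h5]
      exact ((grm_eq_iff (L_zero_mem _) (L_zero_mem _)).2 h2).symm
    have h9 : u * (u₀ ^ (N : ℤ))⁻¹ ∈ L G 1 := by
      rw [← grm_eq_iff (L_zero_mem _) (L_zero_mem _), h8, grm_zpow (L_zero_mem _)]
    have h10 := hE.ln_congr hT (zpow_mem hu₀ (N : ℤ)) h9
    rw [← hu1] at h10
    have h11 : (ln (u₀ ^ (N : ℤ)) : QG d G) = ln u₀ ^ (N : ℤ) := by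
      ext a
      · rw [(zpow_fn_of_sf rfl _ a).1]
        simp only [ln]
        rw [← zpow_mul, ← zpow_mul, mul_comm]
      · rw [(zpow_fn_of_sf rfl _ 0).2]
        rfl
    rw [h11, chi_zpow hE.mul (ln_mem_HH hu₀), zpow_natCast, ← pow_mul] at h10
    rw [mul_comm]
    exact h10.symm
  -- the homomorphism `κ`
  have hκ : ∀ v ∈ NN G, χ (ln v) ^ (M * N) = 1 := by
    refine hE.nd.kappa (κ := fun v => χ (ln v) ^ (M * N)) ?_ ?_ ?_ ?_ hu₀ hγ₀ hg hκ₀
    · intro x hx y hy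
      simp only [pow_mul]
      rw [hE.ln_mul hT hx hy, mul_pow]
    · intro x hx
      simp only [pow_mul]
      rw [hE.ln_triv hT hx, one_pow]
    · refine ContinuousOn.pow ?_ _
      exact hE.cont.comp continuous_ln.continuousOn fun x hx => ln_mem_HH hx
    · intro x hx hxΓ
      rw [hE.lam _ (ln_mem_HH hx) (fun _ => zpow_mem hxΓ _), one_pow]
  have htor : ∀ h ∈ HH d g, h.sf = 0 → (∀ a, h.fn a ∈ NN G) → χ h ^ (N * M * N) = 1 := by
    intro h hh h0 hv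
    obtain ⟨u, hu, hu1, -⟩ := hext h hh h0 hv
    rw [pow_mul, hu1, ← pow_mul]
    exact hκ u hu
  have hpos : 0 < N * M * N := Nat.mul_pos (Nat.mul_pos hN hM) hN
  have hpath : ∀ δ : unitInterval → QG d G, Continuous δ → δ 0 = 1 → (∀ t, δ t ∈ HH d g) →
      (∀ t, (δ t).sf = 0) → (∀ t a, (δ t).fn a ∈ NN G) → ∀ t, χ (δ t) = 1 := by
    intro δ hδ hδ0 hδH hδs hδv t
    refine path_torsion (fun t => χ (δ t)) (hE.cont.comp_continuous hδ hδH) ?_ _ hpos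
      (fun t => htor _ (hδH t) (hδs t) (hδv t)) t
    simp only [hδ0]
    exact chi_one hE.mul
  -- generators
  have hle : HH d g ≤ (MonoidHom.mk' (fun h : HH d g => χ h)
      (fun x y => hE.mul _ x.2 _ y.2)).ker.map (HH d g).subtype := by
    refine (Subgroup.closure_le _).2 ?_
    have hmem : ∀ h ∈ HH d g, χ h = 1 → h ∈ (MonoidHom.mk' (fun h : HH d g => χ h)
      (fun x y => hE.mul _ x.2 _ y.2)).ker.map (HH d g).subtype := by
      intro h hh h1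
      exact ⟨⟨h, hh⟩, MonoidHom.mem_ker.2 h1, rfl⟩
    rintro _ ((⟨x, rfl⟩ | ⟨u, hu, rfl⟩) | ⟨u, hu, rfl⟩)
    · exact hmem _ (cst_mem_HH x) (hE.cst_one x)
    · refine hmem _ (pw_mem_HH hu) ?_
      obtain ⟨δ, hδ, hδ0, hδ1⟩ := hu
      have hδN : ∀ t, δ t ∈ NN G := fun t => joinedOne_path hδ hδ0 t
      have h1 := hpath (fun t => pw (δ t * g) 1 * (pw g 1)⁻¹) ?_ ?_ ?_ ?_ ?_ 1
      · simp only [hδ1] at h1
        have hu : u ∈ NN G := hδ1 ▸ hδN 1
        rw [hE.mul _ (pw_mem_HH hu) _ (inv_mem pw_self_mem_HH), chi_inv hE.mul pw_self_mem_HH,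
          hE.pg, inv_one, mul_one] at h1
        exact h1
      · exact ((continuous_pw 1).comp (by fun_prop : Continuous fun t => δ t * g)).mul
          continuous_const
      · simp only [hδ0, one_mul, mul_inv_cancel]
      · exact fun t => mul_mem (pw_mem_HH (hδN t)) (inv_mem pw_self_mem_HH)
      · exact fun t => rfl
      · intro t a
        have h2 : (pw (δ t * g) 1 * (pw g 1)⁻¹ : QG d G).fn a =
            (δ t * g) ^ rv a 1 * (g ^ rv (sh (-1) (sh 1 a)) 1)⁻¹ := rfl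
        refine NN_of_mk ?_
        rw [h2, sh_sh, add_neg_cancel, sh_zero_left, map_mul, map_inv, map_zpow, map_zpow, map_mul,
          mk_NN (hδN t), one_mul, mul_inv_cancel]
    · refine hmem _ (ln_mem_HH hu) ?_
      obtain ⟨δ, hδ, hδ0, hδ1⟩ := hu
      have hδN : ∀ t, δ t ∈ NN G := fun t => joinedOne_path hδ hδ0 t
      have h1 := hpath (fun t => ln (δ t)) (continuous_ln.comp hδ) ?_
        (fun t => ln_mem_HH (hδN t)) (fun t => rfl) (fun t a => zpow_mem (hδN t) _) 1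
      · simp only [hδ1] at h1
        exact h1
      · simp only [hδ0]
        ext a
        · simp [ln]
        · rfl
  intro h hh
  obtain ⟨⟨h', hh'⟩, h1, rfl⟩ := hle hh
  exact MonoidHom.mem_ker.1 h1

end

theorem endgame (hA : S_A1) (hP : S_POW) (hX : S_EX) : S_E := by
  intro G _ _ _ Γ g hN d χ hc hm h1 h2 h3
  exact Ed.final hA hP hX ⟨hN, hc, hm, h1, h2, h3⟩

end Pool.Agent.Q185.NP
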