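import Pool.Agent.Q185.NP.Red

/-!
# Project NP: the frozen statement from the lemmas
-/

set_option autoImplicit false
set_option linter.unusedSectionVars false

namespace Pool.Agent.Q185.NP

open Q70.Nil Topology Filter Set
open scoped commutatorElement Manifold ContDiff

theorem frozen (hA : S_A1) (hP : S_POW) (hE : S_EX) (hA3 : S_A3) (hA4 : S_A4) (hDM : S_DM)
    (hSG : S_SG) (hX : S_X) (hC2 : S_C2) (hC3 : S_C3) (hC4 : S_C4)
    (E : Type) [NormedAddCommGroup E] [NormedSpace ℝ E] [FiniteDimensional ℝ E]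
    (G : Type) [Group G] [TopologicalSpace G] [ChartedSpace E G]
    [LieGroup (modelWithCornersSelf ℝ E) ((⊤ : ℕ∞) : WithTop ℕ∞) G] [Group.IsNilpotent G]
    (Γ : Subgroup G) (hΓ : DiscreteTopology Γ) (hcpt : CompactSpace (G ⧸ Γ)) (g : G)
    (hm : ∀ m : ℕ, 0 < m → ∀ x : G ⧸ Γ, Dense (Set.range (fun n : ℤ => (g ^ m) ^ n • x)))
    (d : ℕ) (p : Fin d → Polynomial ℤ) (hp : ∀ i, (p i).eval 0 = 0) (k : ℕ) (hk : 0 < k) (j : ℕ)
    (U : Set (G ⧸ Γ)) (hU : IsOpen U) (hUne : U.Nonempty) :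
    ∃ n : ℕ, 0 < n ∧ ∃ x ∈ U, ∀ i, g ^ ((p i).eval ((k : ℤ) * (n : ℤ) + (j : ℤ))) • x ∈ U := by
  have hTG : IsTopologicalGroup G := topologicalGroup_of_lieGroup 𝓘(ℝ, E) ∞
  have hlpc : LocallyPathConnectedSpace G := ChartedSpace.locallyPathConnectedSpace E G
  have hT1 : T1Space G := ChartedSpace.t1Space E G
  have hT2 : T2Space G := inferInstance
  have hg : g ∈ GG g := (mem_GG g).2 ⟨1, one_mem _, 1, by simp⟩
  have hN := nd_sub hC2 hC3 hC4 inferInstance (hX E G) Γ hΓ hcpt hm hg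
  -- the base point
  obtain ⟨y, hy, e, he⟩ := (hm 1 one_pos (QuotientGroup.mk 1)).inter_open_nonempty U hU hUne
  have he' : g ^ e • (QuotientGroup.mk 1 : G ⧸ Γ) ∈ U := by
    have h1 : (g ^ 1) ^ e • (QuotientGroup.mk 1 : G ⧸ Γ) = y := he
    rw [pow_one] at h1
    rw [h1]
    exact hy
  let K : Subgroup G := GG g
  have hKo : IsOpen (K : Set G) := GG_isOpen g
  let W : Set K := {w | g ^ e • ((w : G) • (QuotientGroup.mk 1 : G ⧸ Γ)) ∈ U}
  have hW : W ∈ 𝓝 (1 : K) := by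
    have hc : Continuous fun w : K => g ^ e • ((w : G) • (QuotientGroup.mk 1 : G ⧸ Γ)) := by
      have h1 : Continuous fun w : K => (QuotientGroup.mk (g ^ e * (w : G)) : G ⧸ Γ) :=
        QuotientGroup.continuous_mk.comp (by fun_prop)
      refine h1.congr fun w => ?_
      simp only [MulAction.Quotient.smul_mk, smul_eq_mul, mul_one]
    refine (hU.preimage hc).mem_nhds ?_
    simp only [mem_preimage, OneMemClass.coe_one, one_smul]
    exact he'
  set D : ℕ := Finset.univ.sup fun i : Fin d => (p i).natDegree with hD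
  have hdeg : ∀ i, (p i).natDegree ≤ D := fun i =>
    Finset.le_sup (f := fun i : Fin d => (p i).natDegree) (Finset.mem_univ i)
  obtain ⟨l, n, hn, ⟨γ, hγ, hγW⟩, hall⟩ := near_pts hA hP hE hA3 hA4 hDM hSG hN k hk j
    (fun i => cf D (p i)) W hW
  have hbase : ∀ (x : K) (γ : K), γ ∈ Γ.subgroupOf K → x * γ ∈ W →
      g ^ e • ((x : G) • (QuotientGroup.mk 1 : G ⧸ Γ)) ∈ U := by
    intro x γ hγ hW
    have h1 : ((x * γ : K) : G) • (QuotientGroup.mk 1 : G ⧸ Γ) = (x : G) • QuotientGroup.mk 1 := by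
      simp only [MulAction.Quotient.smul_mk, smul_eq_mul, mul_one]
      refine (QuotientGroup.eq.2 ?_).symm
      push_cast
      rw [inv_mul_cancel_left]
      exact Subgroup.mem_subgroupOf.1 hγ
    have h2 : g ^ e • (((x * γ : K) : G) • (QuotientGroup.mk 1 : G ⧸ Γ)) ∈ U := hW
    rwa [h1] at h2
  refine ⟨n, hn, g ^ e • (g ^ l • (QuotientGroup.mk 1 : G ⧸ Γ)), ?_, fun i => ?_⟩
  · have := hbase _ _ hγ hγW
    push_cast at this
    exact this
  · obtain ⟨γ', hγ', hγW'⟩ := hall i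
    have := hbase _ _ hγ' hγW'
    push_cast at this
    rw [rv_cf (hp i) (hdeg i), mul_smul] at this
    rw [← mul_smul, ← zpow_add, add_comm, zpow_add, mul_smul]
    exact this

end Pool.Agent.Q185.NP
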