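import Pool.Agent.Q185.NP.Asm
import Pool.Agent.Q70.NilLie

/-!
# Project NP: reduction of the frozen statement to `Nd`
-/

set_option autoImplicit false
set_option linter.unusedSectionVars false

namespace Pool.Agent.Q185.NP

open Q70.Nil Topology Filter Set
open scoped commutatorElement Manifold ContDiff

/-- an open subgroup inherits the exponential map -/
theorem ExD.sub {G : Type} [Group G] [TopologicalSpace G] [IsTopologicalGroup G] {n : ℕ}
    {e : (Fin n → ℝ) → G} (he : ExD n e) (K : Subgroup G) (hK : IsOpen (K : Set G)) :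
    HasEx K := by
  have he0 : e 0 = 1 := by
    have := he.add 0 0 0
    simp only [smul_zero] at this
    exact left_eq_mul.1 this
  have hpow : ∀ (v : Fin n → ℝ) (m : ℕ), e (((2 : ℝ) ^ m)⁻¹ • v) ^ (2 ^ m) = e v := by
    intro v m
    have h1 : ∀ (j : ℕ) (s : ℝ), e (s • v) ^ j = e ((j * s) • v) := by
      intro j s
      induction j with
      | zero => simp [he0]
      | succ j ih =>
        rw [pow_succ, ih, ← he.add]
        congr 2
        push_cast
        ring
    rw [h1]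
    congr 1
    push_cast
    rw [mul_inv_cancel₀ (by positivity), one_smul]
  have hmem : ∀ v, e v ∈ K := by
    intro v
    have hev : ∀ᶠ m : ℕ in atTop, e (((2 : ℝ) ^ m)⁻¹ • v) ∈ (K : Set G) := by
      have h1 : Tendsto (fun m : ℕ => ((2 : ℝ) ^ m)⁻¹ • v) atTop (𝓝 (0 : Fin n → ℝ)) := by
        have h2 : Tendsto (fun m : ℕ => ((2 : ℝ) ^ m)⁻¹) atTop (𝓝 0) :=
          tendsto_inv_atTop_zero.comp (tendsto_pow_atTop_atTop_of_one_lt (by norm_num))
        simpa using h2.smul_const v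
      have h3 : Tendsto (fun m : ℕ => e (((2 : ℝ) ^ m)⁻¹ • v)) atTop (𝓝 1) := by
        have := (he.cont.tendsto 0).comp h1
        rwa [he0] at this
      exact h3 (hK.mem_nhds (one_mem K))
    obtain ⟨m, hm⟩ := hev.exists
    rw [← hpow v m]
    exact pow_mem hm _
  refine ⟨n, fun v => ⟨e v, hmem v⟩, ⟨?_, ?_, ?_, ?_⟩⟩
  · exact he.cont.subtype_mk _
  · exact fun v s t => Subtype.ext (he.add v s t)
  · intro v w
    rw [tendsto_subtype_rng]
    have := he.trotter v w
    exact this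
  · intro O hO
    have h1 := he.nhds O hO
    rw [nhds_subtype_eq_comap, mem_comap]
    refine ⟨e '' O, h1, ?_⟩
    rintro ⟨x, hx⟩ ⟨v, hv, hvx⟩
    exact ⟨v, hv, Subtype.ext hvx⟩

section

variable {G : Type} [Group G] [TopologicalSpace G] [IsTopologicalGroup G] [T2Space G]

/-- total minimality -/
def TotMin (Γ : Subgroup G) (g : G) : Prop :=
  ∀ m : ℕ, 0 < m → ∀ x : G ⧸ Γ, Dense (Set.range (fun n : ℤ => (g ^ m) ^ n • x))

/-- all open subgroups containing `g` act transitively -/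
theorem TotMin.trans {Γ : Subgroup G} {g : G} (hm : TotMin Γ g) (K : Subgroup G)
    (hK : IsOpen (K : Set G)) {m : ℕ} (hm0 : 0 < m) (hg : g ^ m ∈ K) (h : G) :
    ∃ x ∈ K, x⁻¹ * h ∈ Γ := by
  have hO : IsOpen ((fun x : G => (QuotientGroup.mk (x * h) : G ⧸ Γ)) '' (K : Set G)) := by
    have : (fun x : G => (QuotientGroup.mk (x * h) : G ⧸ Γ)) '' (K : Set G) =
        QuotientGroup.mk '' ((fun x : G => x * h) '' (K : Set G)) := by
      rw [image_image]
    rw [this]
    exact QuotientGroup.isOpenMap_coe _ (isOpenMap_mul_right h _ hK)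
  obtain ⟨y, ⟨x, hx, hxy⟩, n, hn⟩ := (hm m hm0 (QuotientGroup.mk 1)).inter_open_nonempty _ hO
    ⟨_, 1, one_mem _, rfl⟩
  have h1 : (QuotientGroup.mk ((g ^ m) ^ n) : G ⧸ Γ) = QuotientGroup.mk (x * h) := by
    have h2 : (g ^ m) ^ n • (QuotientGroup.mk 1 : G ⧸ Γ) = QuotientGroup.mk (x * h) :=
      hn.trans hxy.symm
    rw [← h2]
    simp only [MulAction.Quotient.smul_mk, smul_eq_mul, mul_one]
  refine ⟨x⁻¹ * (g ^ m) ^ n, mul_mem (inv_mem hx) (zpow_mem hg n), ?_⟩
  have h2 := QuotientGroup.eq.1 h1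
  have h3 : (x⁻¹ * (g ^ m) ^ n)⁻¹ * h = ((g ^ m) ^ n)⁻¹ * (x * h) := by group
  rw [h3]
  exact h2

theorem fac_of_totMin {Γ : Subgroup G} [CompactSpace (G ⧸ Γ)] {g : G} (hm : TotMin Γ g)
    (N : Subgroup G) [N.Normal] (hN : IsOpen (N : Set G)) (h : G) : ∃ u ∈ N, ∃ γ ∈ Γ, h = u * γ := by
  let K : Subgroup G := N ⊔ Γ
  have hKo : IsOpen (K : Set G) := Subgroup.isOpen_mono (le_sup_left : N ≤ K) hN
  have hmemK : ∀ x, x ∈ K ↔ ∃ u ∈ N, ∃ γ ∈ Γ, u * γ = x := by
    intro x
    rw [← SetLike.mem_coe, Subgroup.normal_mul, Set.mem_mul]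
    rfl
  have hdisc : DiscreteTopology (G ⧸ K) := QuotientGroup.discreteTopology hKo
  have hcpt : CompactSpace (G ⧸ K) := by
    let q : G ⧸ Γ → G ⧸ K := Subgroup.quotientMapOfLE (le_sup_right : Γ ≤ K)
    have hq : Continuous q := by
      exact (QuotientGroup.isQuotientMap_mk Γ).continuous_iff.2 QuotientGroup.continuous_mk
    have hs : Function.Surjective q := by
      intro z
      obtain ⟨x, rfl⟩ := QuotientGroup.mk_surjective z
      exact ⟨QuotientGroup.mk x, rfl⟩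
    rw [← isCompact_univ_iff, ← hs.range_eq]
    exact isCompact_range hq
  have hfin : Finite (G ⧸ K) := finite_of_compact_of_discrete
  obtain ⟨i, j, hij, hmk⟩ := Finite.exists_ne_map_eq_of_infinite
    (fun n : ℕ => (QuotientGroup.mk (g ^ n) : G ⧸ K))
  have key : ∀ i j : ℕ, i < j → (QuotientGroup.mk (g ^ i) : G ⧸ K) = QuotientGroup.mk (g ^ j) →
      ∃ m : ℕ, 0 < m ∧ g ^ m ∈ K := by
    intro i j hij h
    refine ⟨j - i, by omega, ?_⟩
    have h1 := QuotientGroup.eq.1 h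
    have h2 : g ^ j = g ^ i * g ^ (j - i) := by rw [← pow_add]; congr 1; omega
    rwa [h2, inv_mul_cancel_left] at h1
  obtain ⟨m, hm0, hgm⟩ : ∃ m : ℕ, 0 < m ∧ g ^ m ∈ K := by
    rcases lt_or_gt_of_ne hij with h | h
    · exact key i j h hmk
    · exact key j i h hmk.symm
  obtain ⟨x, hx, hxΓ⟩ := hm.trans K hKo hm0 hgm h
  obtain ⟨u, hu, γ, hγ, rfl⟩ := (hmemK x).1 hx
  refine ⟨u, hu, γ * ((u * γ)⁻¹ * h), mul_mem hγ hxΓ, ?_⟩
  group

theorem nd_sub (hC2 : S_C2) (hC3 : S_C3) (hC4 : S_C4) (hnil : Group.IsNilpotent G)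
    [LocallyPathConnectedSpace G] (hex : HasEx G) (Γ : Subgroup G) (hΓ : DiscreteTopology Γ)
    (hcpt : CompactSpace (G ⧸ Γ)) {g : G} (hm : TotMin Γ g) (hg : g ∈ GG g) :
    Nd (Γ.subgroupOf (GG g)) (⟨g, hg⟩ : GG g) := by
  have hcl : IsClosed (Γ : Set G) := Subgroup.isClosed_of_discrete
  let K : Subgroup G := GG g
  have hKo : IsOpen (K : Set G) := GG_isOpen g
  have hNG' : NN G ≤ K := le_sup_left
  have htr : ∀ h : G, ∃ x ∈ K, x⁻¹ * h ∈ Γ := fun h =>
    hm.trans K hKo one_pos (by rw [pow_one]; exact hg) h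
  have hcl' : IsClosed ((Γ.subgroupOf K : Subgroup K) : Set K) := hcl.preimage continuous_subtype_val
  have hgen : ∀ x : K, ∃ n ∈ NN K, ∃ k : ℤ, x = n * (⟨g, hg⟩ : K) ^ k := by
    rintro ⟨x, hx⟩
    obtain ⟨n, ⟨γ, hγ, hγ0, hγ1⟩, k, rfl⟩ := (mem_GG g).1 hx
    have hmem : ∀ t, γ t ∈ K := fun t => hNG' (joinedOne_path hγ hγ0 t)
    refine ⟨⟨n, hγ1 ▸ hmem 1⟩, ⟨fun t => ⟨γ t, hmem t⟩, by fun_prop, Subtype.ext hγ0,
      Subtype.ext hγ1⟩, k, ?_⟩
    apply Subtype.ext
    push_cast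
    rfl
  have hcptK : CompactSpace (K ⧸ Γ.subgroupOf K) := by
    choose x hxK hxΓ using htr
    let q : G → K ⧸ Γ.subgroupOf K := fun h => QuotientGroup.mk ⟨x h, hxK h⟩
    have hqK : ∀ (y : K) (h : G), (y : G)⁻¹ * h ∈ Γ → q h = QuotientGroup.mk y := by
      intro y h hyh
      refine QuotientGroup.eq.2 ?_
      rw [Subgroup.mem_subgroupOf]
      push_cast
      have e : (x h)⁻¹ * (y : G) = ((x h)⁻¹ * h) * ((y : G)⁻¹ * h)⁻¹ := by group
      rw [e]
      exact mul_mem (hxΓ h) (inv_mem hyh)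
    have hqi : ∀ a b : G, a⁻¹ * b ∈ Γ → q a = q b := by
      intro a b hab
      refine hqK ⟨x b, hxK b⟩ a ?_
      have e : (x b)⁻¹ * a = ((x b)⁻¹ * b) * (a⁻¹ * b)⁻¹ := by group
      simp only
      rw [e]
      exact mul_mem (hxΓ b) (inv_mem hab)
    have hqc : Continuous q := by
      rw [continuous_iff_continuousAt]
      intro h
      -- near `h`, `q (y h) = mk (y x h)` for `y` in `K` near `1`
      have h1 : ∀ y : K, q ((y : G) * h) = QuotientGroup.mk (y * ⟨x h, hxK h⟩) := by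
        intro y
        refine hqK _ _ ?_
        push_cast
        have e : ((y : G) * x h)⁻¹ * ((y : G) * h) = (x h)⁻¹ * h := by group
        rw [e]
        exact hxΓ h
      have h2 : Tendsto (fun y : K => q ((y : G) * h)) (𝓝 1) (𝓝 (q h)) := by
        have h3 : Continuous fun y : K => (QuotientGroup.mk (y * ⟨x h, hxK h⟩) :
            K ⧸ Γ.subgroupOf K) := QuotientGroup.continuous_mk.comp (by fun_prop)
        have h4 := h3.tendsto 1
        simp only [one_mul] at h4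
        refine h4.congr fun y => (h1 y).symm
      have h5 : 𝓝 h = map (fun z : G => z * h) (𝓝 1) := by
        have := (Homeomorph.mulRight h).map_nhds_eq 1
        simp only [Homeomorph.coe_mulRight, one_mul] at this
        exact this.symm
      have h6 : 𝓝 (1 : G) = map (Subtype.val : K → G) (𝓝 (1 : K)) := by
        have := (hKo.isOpenEmbedding_subtypeVal).map_nhds_eq (1 : K)
        exact this.symm
      rw [ContinuousAt, h5, h6, map_map, tendsto_map'_iff]
      exact h2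
    let Q : G ⧸ Γ → K ⧸ Γ.subgroupOf K := Quotient.lift q (fun a b hab =>
      hqi a b (QuotientGroup.leftRel_apply.1 hab))
    have hQc : Continuous Q := (QuotientGroup.isQuotientMap_mk Γ).continuous_iff.2 hqc
    have hQs : Function.Surjective Q := by
      intro z
      obtain ⟨y, rfl⟩ := QuotientGroup.mk_surjective z
      exact ⟨QuotientGroup.mk (y : G), hqK y y (by rw [inv_mul_cancel]; exact one_mem _)⟩
    rw [← isCompact_univ_iff, ← hQs.range_eq]
    exact isCompact_range hQc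
  have hlpcK : LocallyPathConnectedSpace K := hKo.isOpenEmbedding_subtypeVal.locallyPathConnectedSpace
  have hΓK : DiscreteTopology (Γ.subgroupOf K) := by
    refine DiscreteTopology.of_continuous_injective
      (f := fun x : Γ.subgroupOf K => (⟨x.1.1, Subgroup.mem_subgroupOf.1 x.2⟩ : Γ)) (by fun_prop) ?_
    intro x y hxy
    have h1 : ((x : K) : G) = ((y : K) : G) := congrArg (fun z : Γ => (z : G)) hxy
    exact Subtype.ext (Subtype.ext h1)
  have hexK : HasEx K := by
    obtain ⟨n, e, he⟩ := hex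
    exact he.sub K hKo
  have hnilK : Group.IsNilpotent K := inferInstance
  have hRD : ∀ i, 1 ≤ i → RD (Γ.subgroupOf K) i := by
    intro i hi
    induction i, hi using Nat.le_induction with
    | base => exact hC2 K hexK _ hcptK _ hgen
    | succ i hi ih => exact hC3 K hexK _ hcptK _ hgen i hi ih
  refine ⟨hnilK, hcl', hC4 K hnilK hexK _ hΓK hcptK hRD, NN_isOpen, hgen, ?_, ?_⟩
  · -- transitivity of the identity component
    have hfac := fac_of_totMin hm (NN G) NN_isOpen g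
    obtain ⟨u, ⟨δ, hδ, hδ0, hδ1⟩, γ, hγ, hgu⟩ := hfac
    have hmem : ∀ t, δ t ∈ K := fun t => hNG' (joinedOne_path hδ hδ0 t)
    have huK : u ∈ K := hδ1 ▸ hmem 1
    have hγK : γ ∈ K := by
      have e : γ = u⁻¹ * g := by rw [hgu, inv_mul_cancel_left]
      rw [e]
      exact mul_mem (inv_mem huK) hg
    exact ⟨⟨u, huK⟩, ⟨fun t => ⟨δ t, hmem t⟩, by fun_prop, Subtype.ext hδ0, Subtype.ext hδ1⟩,
      ⟨γ, hγK⟩, Subgroup.mem_subgroupOf.2 hγ, Subtype.ext hgu⟩
  · intro x V hV hVne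
    have hV' : IsOpen (QuotientGroup.mk '' (Subtype.val '' V) : Set (G ⧸ Γ)) :=
      QuotientGroup.isOpenMap_coe _ (hKo.isOpenEmbedding_subtypeVal.isOpenMap _ hV)
    obtain ⟨y, ⟨_, ⟨v, hv, rfl⟩, hvy⟩, n, hn⟩ := (hm 1 one_pos (QuotientGroup.mk (x : G))).inter_open_nonempty
      _ hV' ((hVne.image _).image _)
    have h1 : (QuotientGroup.mk (g ^ n * (x : G)) : G ⧸ Γ) = QuotientGroup.mk (v : G) := by
      have h2 : (g ^ 1) ^ n • (QuotientGroup.mk (x : G) : G ⧸ Γ) = QuotientGroup.mk (v : G) :=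
        hn.trans hvy.symm
      rw [pow_one] at h2
      exact h2
    have h3 := QuotientGroup.eq.1 h1
    refine ⟨n, ((⟨g, hg⟩ : K) ^ n * x)⁻¹ * v, ?_, ?_⟩
    · rw [Subgroup.mem_subgroupOf]
      push_cast
      exact h3
    · rw [mul_inv_cancel_left]
      exact hv

/-- coefficient vector of a polynomial -/
def cf (d : ℕ) (p : Polynomial ℤ) : Ix d := fun e => p.coeff (e.val + 1)

theorem rv_cf {d : ℕ} {p : Polynomial ℤ} (h0 : p.eval 0 = 0) (hd : p.natDegree ≤ d) (x : ℤ) :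
    rv (cf d p) x = p.eval x := by
  rw [Polynomial.eval_eq_sum_range' (n := d + 2) (by omega), Finset.sum_range_succ']
  have h1 : p.coeff 0 = 0 := by rwa [Polynomial.coeff_zero_eq_eval_zero]
  rw [h1, zero_mul, add_zero]
  exact Fin.sum_univ_eq_sum_range (fun e => p.coeff (e + 1) * x ^ (e + 1)) (d + 1)

end

end Pool.Agent.Q185.NP
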