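import Pool.Agent.Q185.NP.Defs

/-!
# Project NP: statements of the lemmas, with complete paper proofs in the docstrings

Target: frozen statement S04319 (row MP_35c333_an).  Every lemma is a closed proposition `S_…`; a job
proves `theorem … : S_…` from the lemmas named in its docstring (as hypotheses).
Names from `Q70.Nil`: `L G m` is the lower central series (`L G 0 = ⊤`, `L G 1 = [G, G]`),
`D Λ m` the closure of `L_m Λ`, `NN G` the path component of `1`.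
-/

set_option autoImplicit false
set_option linter.unusedSectionVars false

namespace Pool.Agent.Q185.NP

open Q70.Nil Topology Filter Set
open scoped commutatorElement Manifold ContDiff

/-! ## A. Polynomial maps -/

/-- **A1 (Leibman's theorem).**  Polynomial maps form a group, stable under additive substitutions.

Proof.  All statements are for `PN n k` (a map of level `k`, tested on `n` derivatives
`∂_m h (a) = h (a + m) (h a)⁻¹`), `F_k = L G (k - 1)` (`F_0 = F_1 = G`).  Facts on `F`: `F` is decreasing,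
`F_k` is normal and `[F_i, F_j] ≤ F_{i+j}` (for `i = 0` or `j = 0` by normality; for `i, j ≥ 1` this is
`[L_{i-1}, L_{j-1}] ≤ L_{i+j-1}`, i.e. `[L_i, L_j] ≤ L_{i+j+1}`, by induction on `j` from the three
subgroups lemma, Mathlib `Subgroup.commutator_commutator_eq_bot_of_rotate` in `G ⧸ L_{i+j+1}` or its
normal form).  Monotonicity, by induction on `n`: `PN (n+1) k h → PN n k h` and `PN n (k+1) h → PN n k h`.
Main induction on `n`: for ALL `k, i, j`
 (a) `PN n k g → PN n k h → PN n k (g h)`; (b) `PN n k g → PN n k g⁻¹`;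
 (c) `PN n i g → PN n j h → PN n (i+j) ⁅g, h⁆`.
`n = 0` is the pointwise statement.  Step `n → n+1`, with `x = ∂g`, `y = ∂h` (for one `m`):
 (a) `∂(gh) = x · ⁅g, y⁆ · y` with `x, y` of level `k+1`, `g` of level `k` (by monotonicity in `n`), so
 `⁅g, y⁆` is of level `2k+1 ≥ k+1` by (c) for `n`; use (a) for `n`.
 (b) `∂(g⁻¹) = g⁻¹ x⁻¹ g = ⁅g⁻¹, x⁻¹⁆ · x⁻¹`.
 (c) put `c = ⁅g, h⁆`; `g(a+m) = x g`, `h(a+m) = y h` and
 `⁅x g, y h⁆ = ^x(⁅g, y⁆ · ^y⁅g, h⁆) · ⁅x, y⁆ · ^y⁅x, h⁆` (where `^u v = u v u⁻¹`), so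
 `∂c = ^x⁅g, y⁆ · (^{xy}c · c⁻¹) · ^c(⁅x, y⁆ · ^y⁅x, h⁆)`, and `^{xy}c · c⁻¹ = ⁅xy, c⁆`, `^u v = ⁅u, v⁆ v`;
 all factors are of level `i+j+1` by (a), (c) for `n` (e.g. `x y` has level `1`, `c` has level `i+j`,
 every map involved has level `0`, so conjugation does not lower the level). -/
def S_A1 : Prop :=
  ∀ (G : Type) [Group G] (d : ℕ),
    (∀ g h : Ix d → G, Pl g → Pl h → Pl (fun a => g a * h a)) ∧
    (∀ g : Ix d → G, Pl g → Pl (fun a => (g a)⁻¹)) ∧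
    (∀ (g : Ix d → G) (f : Ix d → Ix d), (∀ a b, f (a + b) = f a + f b) → Pl g →
      Pl (fun a => g (f a))) ∧
    ∀ x : G, Pl (fun _ : Ix d => x)

/-- **A1b (powers).**  If `x ∈ L_i` and `q : Ix d → ℤ` has degree at most `i + 1` then `a ↦ x ^ q(a)` is a
polynomial map.

Proof.  Prove by induction on `r`: for all `n, k`, `q` with `DG n q` and `x ∈ L G (k + n - 1)`
(`= F_{k+n}`), `PN r k (fun a => x ^ q a)`.  The values lie in `F_{k+n} ≤ F_k`.  The derivative is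
`x ^ (q (a+m) - q a)`: if `n = 0` it is constant `1` (and `PN r k 1` holds trivially), if `n = n'+1` then
`DG n' (∂_m q)` and `k + n = (k+1) + n'`, so induction applies.  Take `k = 0`, `n = i + 1`. -/
def S_POW : Prop :=
  ∀ (G : Type) [Group G] (d i : ℕ) (x : G), x ∈ L G i → ∀ q : Ix d → ℤ, DG (i + 1) q →
    Pl (fun a => x ^ q a)

/-- **A2 (Taylor expansion).**  The products of binomials `bi a α`, `|α| ≤ n`, have degree at most `n`,
and every map of degree at most `n` into an abelian group is a combination of them.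

Proof.  (i) `DG n` is stable under sums, `DG n q → DG (n+1) q`, and a product of `f` of degree `≤ m`
and `g` of degree `≤ n` (integer valued) has degree `≤ m + n`, by induction on `m + n` from
`∂(fg)(a) = f(a+m) ∂g(a) + ∂f(a) g(a)` and `f(a+m) = f(a) + ∂f(a)`; `a ↦ Ring.choose (a e) r` has degree
`≤ r` by induction on `r`: `choose (x + m) r = ∑_{s ≤ r} choose x s · choose m (r - s)` (Vandermonde,
Mathlib `Ring.add_choose_eq`), so the derivative is a combination of `choose x s`, `s < r`.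
(ii) Newton's formula.  One way: induction on `n`.  For `n = 0`, `q` is constant (`q a = q (0 + a) = q 0`)
and `bi a 0 = 1`.  Another way, induction on the number of variables (state it for functions on
`Fin r → ℤ` for all `r`): for fixed `a'` the function `x ↦ q(a', x)` of one variable has degree `≤ n`,
hence `q(a', x) = ∑_{j ≤ n} choose x j • (Δ^j q)(a', 0)` (both sides have degree `≤ n` in `x` and agree for
`x = 0, …, n`; a function of one integer variable of degree `≤ n` vanishing on `0, …, n` is zero, by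
induction on `n` applied to its difference; Mathlib has `shift_eq_sum_fwdDiff_iter` for natural `x`), and
`a' ↦ (Δ^j q)(a', 0)` has degree `≤ n - j`.  So the exponents satisfy `|α| ≤ n`. -/
def S_TY : Prop :=
  ∀ (d n : ℕ), (∀ α ∈ ex d n, DG n (fun a : Ix d => bi a α)) ∧
    ∀ (B : Type) [AddCommGroup B] (q : Ix d → B), DG n q →
      ∃ b : (Fin (d + 1) → ℕ) → B, ∀ a, q a = ∑ α ∈ ex d n, bi a α • b α

/-- **A2b (the linear coefficient)**, from `S_TY`.  There are integers `c_0, …, c_{W-1}` and `N ≥ 1` with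
`∑ c_t t = N` such that `∑ c_t q (dl t a)` is a multiple of `a_0` for every `q` of degree at most `n`.

Proof.  By `S_TY`, `q (dl t a) = ∑_{|α| ≤ n} bi (dl t a) α • b_α`, and `n! ^ (d+1) · bi (dl t a) α =
∏_e (n!/α_e!) ∏_{s < α_e} (t ^ (e+1) a_e - s)` is a polynomial in `t` of degree `< W := (d+1)(d+1)n + 2` (say),
with integer coefficients.  Its constant coefficient is irrelevant below, its coefficient of `t` is
`n! ^ (d+1) (-1)^(r-1) a_0 / r` if `α = (r, 0, …, 0)`, `r ≥ 1`, and `0` otherwise: if `α_e ≥ 1` for some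
`e ≥ 1` then `t ^ 2` divides it, since the factor `s = 0` is `t^(e+1) a_e`; if `α = 0` it is constant; and
`choose (t a_0) r = t a_0 (t a_0 - 1) ⋯ (t a_0 - r + 1) / r!`.
By the invertibility of the Vandermonde matrix of `0, 1, …, W-1` over `ℚ` (or by Lagrange interpolation)
there are integers `c'_t` and `N' ≥ 1` with `∑_t c'_t t^j = 0` for `j = 0, 2, 3, …, W-1` and
`∑_t c'_t t = N'`.  Put `c_t = n! ^ (d+1) · n! · c'_t`, `N = n! ^ (d+1) · n! · N'`.  Then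
`∑_t c_t bi (dl t a) α = n! N' · (coefficient of t in n!^(d+1) bi (dl t a) α)`, which is
`n! N' n! ^ (d+1) (-1)^(r-1) a_0 / r`, an integer `κ_α` (independent of `a`) times `a_0`, for `α = (r,0,…,0)`,
and `0` otherwise.  So `b = ∑_α κ_α b_α`. -/
def S_LC : Prop :=
  ∀ (d n : ℕ), ∃ (W : ℕ) (c : ℕ → ℤ) (N : ℕ), 0 < N ∧
    ∑ t ∈ Finset.range W, c t * (t : ℤ) = N ∧
    ∀ (B : Type) [AddCommGroup B] (q : Ix d → B), DG n q →
      ∃ b : B, ∀ a, ∑ t ∈ Finset.range W, c t • q (dl (t : ℤ) a) = (a 0) • b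

/-- **A2c (bridge).**  A polynomial map with values in `L_i` has degree at most `i + 1` modulo `L_{i+1}`.

Proof.  By induction on `r` with `r + k = i + 2`: if `PN r k h` and all values of `h` are in `L_i` then, with
`q = grm i ∘ h`: if `r = 0` (`k = i+2`) then the values are in `F_{i+2} = L_{i+1}`, so `q = 0`; if `r = 1`
then `∂_m h` takes values in `F_{i+2} = L_{i+1}`, so `q` is constant, `DG 0 q`; for `r = r'+2`,
`DG (r'+1) q` because `grm i (∂_m h (a)) = q(a+m) - q(a)` (`grm_mul`, `grm_inv`) and induction.  Apply it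
with `r = i + 2`, `k = 0`. -/
def S_BR : Prop :=
  ∀ (G : Type) [Group G] (d i : ℕ) (h : Ix d → G), Pl h → (∀ a, h a ∈ L G i) →
    DG (i + 1) (fun a => grm i (h a))

/-- **A2d (extraction)**, from `S_LC` and `S_BR`.

Proof.  Take `W, c, N` of `S_LC d (i+1)`.  Let `B` be the additive subgroup `{grm i x | x ∈ V}` of `Gr G i`
(closed under sums and negatives by `grm_mul`, `grm_inv`) and `q : Ix d → B`, `q a = grm i (h a)`; it has
degree `≤ i+1` by `S_BR` (degree can be tested in `Gr G i`).  So there is `u ∈ V` with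
`∑_t c_t • grm i (h (dl t a)) = a_0 • grm i u`, i.e. (`grm_mul`, `grm_zpow`, for products over lists of
elements of `L_i`) `grm i (∏ …) = grm i (u ^ a_0)`, and `grm_eq_iff` concludes. -/
def S_EX : Prop :=
  ∀ (d i : ℕ), ∃ (W : ℕ) (c : ℕ → ℤ) (N : ℕ), 0 < N ∧
    ∑ t ∈ Finset.range W, c t * (t : ℤ) = N ∧
    ∀ (G : Type) [Group G] (V : Subgroup G), V ≤ L G i → ∀ h : Ix d → G, Pl h → (∀ a, h a ∈ V) →
      ∃ u ∈ V, ∀ a, ((List.range W).map fun t : ℕ => h (dl (t : ℤ) a) ^ c t).prod * (u ^ (a 0))⁻¹ ∈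
        L G (i + 1)

/-- `Qs d G` consists of the pairs with a polynomial first component (from `S_A1`). -/
theorem mem_Qs (hA : S_A1) {G : Type} [Group G] {d : ℕ} (q : QG d G) : q ∈ Qs d G ↔ Pl q.fn := by
  constructor
  · intro hq
    obtain ⟨h1, h2, h3, h4⟩ := hA G d
    induction hq using Subgroup.closure_induction with
    | mem x hx => exact hx
    | one => exact h4 1
    | mul x y _ _ hx hy => exact h1 _ _ hx (h3 _ (sh x.sf) (sh_add_right _) hy)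
    | inv x _ hx => exact h2 _ (h3 _ (sh (-x.sf)) (sh_add_right _) hx)
  · exact fun h => Subgroup.subset_closure h

/-- **A3 (nilpotency of `Qs`)**, from `S_A1`, `S_TY`, `S_BR`.

Proof.  `q ∈ Qs ↔ Pl q.fn` (`mem_Qs`).  For `h` with values in `L_i` write `h̄ = grm i ∘ h`, and
`(Δh̄)(a) = h̄(sh 1 a) - h̄(a)` for `h̄ : Ix d → Gr G i`.
Claim: there is `W ≥ 1` (depending on `d, i`) with `Δ^W q = 0` for every `q : Ix d → B` of degree `≤ i + 1`.
Indeed `Δ^W q (a) = ∑_t (-1)^(W-t) choose W t • q (sh t a)` (as `sh 1` iterated `t` times is `sh t`), and by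
`S_TY` it suffices to treat `q a = bi a α`, `|α| ≤ i+1`: now `t ↦ bi (sh t a) α` is the restriction to
integers of a rational polynomial in `t` of degree `≤ d (i+1)` (each coordinate of `sh t a` is a polynomial
in `t` of degree `≤ d`, `Ring.choose x r` is a polynomial of degree `r` in `x`), so its `W`-th difference
vanishes for `W = d (i+1) + 1` (Mathlib: `fwdDiff_iter_eq_zero_of_degree_lt` or similar).
For `0 ≤ j ≤ W` let `V(i, j)` be the set of `(h, 0) ∈ QG` with `h` polynomial with values in `L_i` and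
`Δ^(W-j) h̄ = 0`.  `V(i, 0)` = all polynomial `h` with values in `L_i` (by the claim), `V(i, W)` = those
with values in `L_{i+1}` `= V(i+1, 0)`.  Each `V(i, j)` is closed under products and inverses (`S_A1`), and
for `p = (h, 0) ∈ V(i, j)`, `j < W`, and `q = (f, n) ∈ Qs`:
`q p q⁻¹ = (f · (h ∘ sh n) · f⁻¹, 0)`, and modulo `L_{i+1}` this is `h̄ ∘ sh n`, as conjugation acts
trivially on `L_i / L_{i+1}`.  So `⁅q, p⁆ = q p q⁻¹ p⁻¹` has class `h̄ ∘ sh n - h̄`, and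
`h̄ ∘ sh n - h̄` is killed by `Δ^(W-j-1)` because `τ^n - 1` is a multiple of `τ - 1` in `ℤ[τ, τ⁻¹]`
(`(τ h̄)(a) = h̄(sh 1 a)`; for `n ≥ 0` by induction on `n` from `τ^(n+1) - 1 = τ^n - 1 + τ^n(τ - 1)`, and
`τ^(-n) - 1 = -τ^(-n)(τ^n - 1)`; the kernel of `Δ^r` is stable under all `τ^n`).  So `⁅q, p⁆ ∈ V(i, j+1)`.
Finally `⁅Qs, Qs⁆` consists of elements with `sf = 0`, i.e. lies in `V(0, 0)`.  So the series
`Qs, V(0,0), V(0,1), …, V(0,W_0) = V(1,0), …, V(c, 0) = 1` (`L_c = 1`) is a descending central series and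
`Qs` is nilpotent (e.g. show `(Qs d G).lowerCentralSeries k` is contained in the `k`-th term, then
`Subgroup.isNilpotent_of_lowerCentralSeries_eq_bot` / `nilpotent_iff_finite_descending_central_series`). -/
def S_A3 : Prop :=
  ∀ (G : Type) [Group G] (d : ℕ), Group.IsNilpotent G → Group.IsNilpotent (Qs d G)

/-- the elements of `QG` with values in `Γ` -/
def Lam {G : Type} [Group G] (d : ℕ) (Γ : Subgroup G) : Subgroup (QG d G) where
  carrier := {q | ∀ a, q.fn a ∈ Γ}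
  mul_mem' {p q} hp hq a := mul_mem (hp a) (hq (sh p.sf a))
  one_mem' _ := one_mem _
  inv_mem' {p} hp a := inv_mem (hp (sh (-p.sf) a))

/-- the elements of `Qs` with values in `Γ` -/
def LamS {G : Type} [Group G] (d : ℕ) (Γ : Subgroup G) : Subgroup (Qs d G) :=
  (Lam d Γ).subgroupOf (Qs d G)

/-- `L_i ∩ Γ` is cocompact in `L_i` -/
def Coc {G : Type} [Group G] [TopologicalSpace G] (Γ : Subgroup G) (i : ℕ) : Prop :=
  ∃ C : Set G, IsCompact C ∧ C ⊆ (L G i : Set G) ∧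
    ∀ x ∈ L G i, ∃ c ∈ C, ∃ γ ∈ Γ, γ ∈ L G i ∧ x = c * γ

/-- **A4 (compactness of `Qs / Λ`)**, from `S_A1`, `S_POW`, `S_TY`, `S_BR`.

Proof.  `q ∈ Qs ↔ Pl q.fn` (`mem_Qs`).  Claim, by induction on `i`: there is a compact set `K_i ⊆ QG` of
elements `(κ, 0)` with `κ` polynomial such that every polynomial `h` can be written `h = κ h' γ` (pointwise
product) with `(κ, 0) ∈ K_i`, `h'` polynomial with values in `L_i`, `γ` polynomial with values in `Γ`.
`i = 0`: `K_0 = {1}`.  Step: by `S_BR`, `S_TY`, `grm i (h' a) = ∑_{α ∈ ex d (i+1)} bi a α • b_α`, choose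
`u_α ∈ L_i` with `grm i u_α = b_α` (`grm_surj`), `u_α = c_α γ_α`, `c_α ∈ C` (the compact set of `Coc Γ i`),
`γ_α ∈ Γ ∩ L_i`.  Let `κ' = ∏_α c_α ^ bi(·, α)` and `γ' = ∏_α γ_α ^ bi(·, α)` (products in a fixed order over
the finite set `ex d (i+1)`, e.g. over `(ex d (i+1)).toList`); they are polynomial by `S_POW`, `S_TY` and
`S_A1`, and `grm i` of `κ'(a) γ'(a)` equals `grm i (h' a)`; so `h'' = κ'⁻¹ h' γ'⁻¹` is polynomial with values
in `L_{i+1}`, and `h = κ κ' h'' γ' γ`.  The new compact set is `K_i · K'` where `K'` is the image of the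
compact set `C^{ex d (i+1)}` under the continuous map `(c_α) ↦ (∏_α c_α ^ bi(·, α), 0)` (`continuous_QG`).
For `i` with `L_i = 1` we get `h = κ γ`.  Now an element `(h, n)` of `Qs` is `(h, 0)(1, n)` and
`(1, n) ∈ Λ`, so `(h, n) = (κ, 0) · (γ, 0)(1, n) ∈ K_i Λ`.  Hence `Qs ⧸ LamS` is the image of the compact set
`K_i` (as a subset of the subtype `Qs`; compact there because `K_i ⊆ Qs`:
`Topology.IsEmbedding.isCompact_iff` or `Subtype.isCompact_iff`) under the continuous quotient map. -/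
def S_A4 : Prop :=
  ∀ (G : Type) [Group G] [TopologicalSpace G] [IsTopologicalGroup G] (d : ℕ) (Γ : Subgroup G),
    Group.IsNilpotent G → (∀ i, Coc Γ i) → CompactSpace (Qs d G ⧸ LamS d Γ)

/-! ## B. Orbit closures in a nilpotent group modulo a closed cocompact subgroup -/

/-- **B0 (closedness of products).**

Proof.  Let `z` be in the closure of `M D`.  Take an ultrafilter on `Q × Q` (pairs `(x, k)`, `x ∈ M`,
`k ∈ D`) along which `x k → z`.  As `Q ⧸ D'` is compact the classes of `k` converge along it, to the class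
of some `k₀`: for each neighbourhood `W` of `k₀`, eventually `k ∈ W D'`, i.e. there is `e ∈ D'` with
`k e ∈ W` (`e` depends on the pair and `W`) (see `Q_lift` in `Pool.Agent.Q70.NilStep` for this technique).
`k e ∈ D`, `D` closed, so `k₀ ∈ D`.  Then `(x k) (k e)⁻¹ = x (k e⁻¹ k⁻¹) ∈ M D' ⊆ M` is close to `z k₀⁻¹`, so
`z k₀⁻¹ ∈ M`, `M` being closed. -/
def S_CLO : Prop :=
  ∀ (Q : Type) [Group Q] [TopologicalSpace Q] [IsTopologicalGroup Q] (D' D₀ : Subgroup Q),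
    IsClosed (D₀ : Set Q) → D' ≤ D₀ → (∀ k ∈ D₀, ∀ e ∈ D', k * e * k⁻¹ ∈ D') →
    CompactSpace (Q ⧸ D') → ∀ M : Set Q, IsClosed M → (∀ x ∈ M, ∀ e ∈ D', x * e ∈ M) →
    IsClosed {z | ∃ x ∈ M, ∃ k ∈ D₀, z = x * k}

/-- **B1 (distality: orbit closures are minimal)**, from `S_CLO`.

Proof.  Let `D_m = D Λ m`, the closure of `L_m Λ`: closed, decreasing, `D_0 = Q`, `[D_m, D_m] ≤ D_{m+1}`
(`comm_D`), so `D_m` normalises `D_{m+1}` (`conj_D`); if `L_c = 1` then `D_c = Λ`; `Q ⧸ D_m` is compact (a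
continuous image of `Q ⧸ Λ`, as `Λ ≤ D_m`).  `OC S D_m x` is closed, stable under left multiplication by
`S` and right multiplication by `D_m`; hence `y ∈ OC S D_m x → OC S D_m y ⊆ OC S D_m x`.
Claim(m): `y ∈ OC S D_m x → x ∈ OC S D_m y`.  `m = 0`: `OC S Q y = Q`.  Step: let
`y ∈ O(x) := OC S D_{m+1} x`.  Then `y ∈ OC S D_m x`, so `x ∈ OC S D_m y`.  The set `O(y) D_m` is closed
(`S_CLO`, `D' = D_{m+1}`, `D₀ = D_m`) and contains `S y D_m`, so `x ∈ O(y) D_m`: there is `k ∈ D_m` with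
`x k ∈ O(y)`.  As `k` normalises `D_{m+1}`, `O(x k) = O(x) k` (`S x k D_{m+1} = S x D_{m+1} k`, right
multiplication by `k` is a homeomorphism).  So `O(x) k = O(x k) ⊆ O(y) ⊆ O(x)`.  By induction
`O(x) k^n ⊆ O(x) k ⊆ O(y)` for `n ≥ 1`, in particular `x k^n ∈ O(y)`.  For every neighbourhood `V` of `1`
there is `n ≥ 1` with `k^n ∈ V D_{m+1}`: the classes of `k^i` in the compact space `Q ⧸ D_{m+1}` have a
cluster point, so there are `i < j` and `e, e' ∈ D_{m+1}`, with `(k^i e)⁻¹ k^j e' ∈ V` as close to `1` as we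
want; and `(k^i e)⁻¹ k^j e' = e⁻¹ k^(j-i) e' = k^(j-i) (k^(-(j-i)) e⁻¹ k^(j-i)) e' ∈ k^(j-i) D_{m+1}`.
So `x k^n d ∈ O(y)` with `k^n d ∈ V`, hence `x ∈ closure O(y) = O(y)`. -/
def S_DM : Prop :=
  ∀ (Q : Type) [Group Q] [TopologicalSpace Q] [IsTopologicalGroup Q], Group.IsNilpotent Q →
    ∀ Λ : Subgroup Q, IsClosed (Λ : Set Q) → CompactSpace (Q ⧸ Λ) →
    ∀ (S : Subgroup Q) (x y : Q), y ∈ OC S Λ x → x ∈ OC S Λ y

/-- **B2 (generation of the lower central series by paths).**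

Proof.  Write `H_i = H.lowerCentralSeries i` (so `H_0 = H`, `H_{i+1} = ⁅H_i, H⁆`), all normalised by `H`, and
modulo `H_{i+1}` the commutator `⁅x, y⁆`, `x ∈ H_{i-1}`... is multiplicative in each variable:
`⁅x x', y⁆ = ⁅x, ⁅x', y⁆⁆ ⁅x', y⁆ ⁅x, y⁆` (`comm_mul_left`), `⁅x, y y'⁆ = ⁅x, y⁆ ⁅y, ⁅x, y'⁆⁆ ⁅x, y'⁆`
(`comm_mul_right`).  Let `E_i` be the set of ends of paths in `H_i` (`JIn H_i`), together with `S` if
`i = 0`.  Claim(i): `H_i` is generated by `E_i` and `H_{i+1}`.  This is what is asserted (a subgroup `K`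
containing `E_i` and `H_{i+1}` contains `H_i`).  `i = 0`: `h = n s`, `n, s ∈ E_0`.  Step `i → i+1`: `H_{i+1}`
is generated by `⁅x, y⁆`, `x ∈ H_i`, `y ∈ H`.  Let `K` contain `E_{i+1}` and `H_{i+2}`.  The set of
`x ∈ H_i` with `⁅x, y⁆ ∈ K` for all `y ∈ H` is a subgroup (`comm_mul_left`, `⁅x, ⁅x', y⁆⁆ ∈ H_{i+2}`; for the
inverse use `⁅x⁻¹, y⁆ = (x⁻¹ ⁅x, y⁆ x)⁻¹ = ` `⁅x, y⁆⁻¹` modulo `H_{i+2}`), contains `H_{i+1}` (`⁅x, y⁆ ∈ H_{i+2}`),
so by Claim(i) it is enough to show that it contains `E_i`.  If `x` is the end of a path `γ` in `H_i` then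
`t ↦ ⁅γ t, y⁆` is a path in `H_{i+1}` from `1` to `⁅x, y⁆`, so `⁅x, y⁆ ∈ E_{i+1}`.  If `i = 0` and
`x = s ∈ S`, write `y = n s'` (`n` end of a path `γ` in `H`, `s' ∈ S`): `⁅s, n s'⁆ = ⁅s, n⁆ ⁅n, ⁅s, s'⁆⁆ ⁅s, s'⁆
= ⁅s, n⁆` as `S` is abelian, and `t ↦ ⁅s, γ t⁆` is a path in `H_1`. -/
def S_PG : Prop :=
  ∀ (Q : Type) [Group Q] [TopologicalSpace Q] [IsTopologicalGroup Q] (S H : Subgroup Q), S ≤ H →
    (∀ s ∈ S, ∀ t ∈ S, s * t = t * s) →
    (∀ h ∈ H, ∃ n s, JIn H n ∧ s ∈ S ∧ h = n * s) →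
    ∀ (i : ℕ) (K : Subgroup Q), H.lowerCentralSeries (i + 1) ≤ K →
      (∀ h, JIn (H.lowerCentralSeries i) h → h ∈ K) → (i = 0 → S ≤ K) →
      H.lowerCentralSeries i ≤ K

/-- **B3 (a function separating orbit closures)**, from `S_CLO`, `S_DM`.

Proof.  `D_m = D Λ m` as in B1, `M_m := OC S D_m 1`, `M' := M_{m+1}`.  Note `S_DM` applies to `D_{m+1}` in
place of `Λ` (closed, `Q ⧸ D_{m+1}` compact); so for `y ∈ M'`, `OC S D_{m+1} y = M'`.
(1) `K := {k ∈ D_m | ∀ y ∈ M', y k ∈ M' ∧ y k⁻¹ ∈ M'}` is a closed subgroup, `D_{m+1} ≤ K ≤ D_m`.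
If `k ∈ D_m` and `y, y k ∈ M'` for ONE `y` then `k ∈ K`: `k` normalises `D_{m+1}`, so
`M' k = OC S D_{m+1} y k = OC S D_{m+1} (y k) = M'`.
(2) `M_m = M' D_m`: `M' D_m` is closed by `S_CLO` and contains `S D_m`; conversely `M' ⊆ M_m` and `M_m` is
right `D_m`-invariant.  So `z = y k`, `y ∈ M'`, `k ∈ D_m`, and `k ∉ K` since `z ∉ M'`.
(3) `K` is normal in `D_m` with abelian quotient because `[D_m, D_m] ≤ D_{m+1} ≤ K`; `D_m ⧸ K` is a compact
Hausdorff abelian topological group, so there is a continuous character, which gives `F : Q → Circle`,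
multiplicative and continuous on `D_m`, `F = 1` on `K`, `F k ≠ 1`: see the proof of `D_le_R` in
`Pool.Agent.Q70.NilStep`, where exactly this is done with `Pool.LatH472.chars` (compactness of `K ⧸ S'`).
(4) For `w ∈ M_m` choose `y' ∈ M'`, `k' ∈ D_m` with `w = y' k'` and put `φ w = F k'`.  If `y' k' = y'' k''`
then `y'' = y' (k' k''⁻¹)`, so `k' k''⁻¹ ∈ K` by (1) and `F k' = F k''`.  Hence `φ (s w) = φ w` (`s y' ∈ M'`),
`φ (w k') = φ w F k'`, `φ = 1` on `M'`, `φ z = F k ≠ 1`.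
(5) `φ` is continuous on `M_m`: let `𝒰` be an ultrafilter on `M_m` converging to `w ∈ M_m`; for `x ∈ M_m`
write `x = y_x k_x`.  The classes of `k_x` in `Q ⧸ D_{m+1}` converge along `𝒰` to the class of some `k₀`:
for every neighbourhood `W` of `k₀`, eventually there is `e ∈ D_{m+1}` with `k_x e ∈ W`; `k₀ ∈ D_m`.
`x (k_x e)⁻¹ = y_x (k_x e⁻¹ k_x⁻¹) ∈ M'` is close to `w k₀⁻¹`, so `w k₀⁻¹ ∈ M'` and `φ w = F k₀`; and
`φ x = F k_x = F (k_x e)` is close to `F k₀` by continuity of `F` on `D_m`. -/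
def S_PHI : Prop :=
  ∀ (Q : Type) [Group Q] [TopologicalSpace Q] [IsTopologicalGroup Q], Group.IsNilpotent Q →
    ∀ Λ : Subgroup Q, IsClosed (Λ : Set Q) → CompactSpace (Q ⧸ Λ) →
    ∀ (S : Subgroup Q) (m : ℕ) (z : Q), z ∈ OC S (D Λ m) 1 → z ∉ OC S (D Λ (m + 1)) 1 →
    ∃ φ F : Q → Circle, ContinuousOn φ (OC S (D Λ m) 1) ∧
      (∀ s ∈ S, ∀ w ∈ OC S (D Λ m) 1, φ (s * w) = φ w) ∧
      (∀ w ∈ OC S (D Λ m) 1, ∀ k ∈ D Λ m, φ (w * k) = φ w * F k) ∧
      (∀ w ∈ OC S (D Λ (m + 1)) 1, φ w = 1) ∧ φ z ≠ 1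

/-- **B4 (the group `H` lies in the orbit closure)**, from `S_PHI`, `S_PG`.

Proof.  `D_m = D Λ m`, `M_m = OC S D_m 1`.  Claim(m): `H ⊆ M_m`.  `m = 0`: `M_0 = Q` (`L_0 = ⊤`).  For
`L_c = 1` we have `D_c = Λ` (closed) and the claim is the theorem.  Step: `H ⊆ M_m`; suppose `z ∈ H`,
`z ∉ M_{m+1}`, and take `φ, F` of `S_PHI`.
(a) `M_m` is stable under left multiplication by `H`: `H D_m ⊆ M_m` (right invariance of `M_m`), so
`closure (H D_m) = M_m` and the left side is left `H`-invariant.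
(b) Let `𝒦 = {h ∈ H | ∃ c : Circle, ∀ w ∈ M_m, φ (h w) = c φ w}`, a subgroup containing `S` (`c = 1`).
Claim: `H_i := H.lowerCentralSeries i ≤ 𝒦` for all `i`; true for large `i` as `Q` is nilpotent (`H_i ≤ L_i`).
Downward induction: let `H_{i+1} ≤ 𝒦`.  By `S_PG` it is enough to show that the end of a path `γ` in `H_i`,
`γ 0 = 1`, is in `𝒦`.  `T = {t | γ t ∈ 𝒦}` is closed (if `t_j → t`, the constants `c_j = φ(γ t_j)` (as
`φ 1 = 1`, `w = 1`) converge to `φ (γ t)`; i.e. `T` is the set of `t` with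
`φ (γ t · w) = φ (γ t) φ w` for all `w ∈ M_m`, an intersection of closed sets), contains `0`.
(c) `T` is open: let `t₀ ∈ T`.  For `t` near `t₀` we have `dist (φ (γ t (γ t₀)⁻¹ w)) (φ w) < 1/2` for ALL
`w ∈ M_m`: both sides are multiplied by `F k` if `w` is replaced by `w k`, `k ∈ D_m` (`Λ ≤ D_m`), so this is
a statement about the compact space `Q ⧸ Λ` (or its closed subset `M_m/Λ`) and the tube lemma applies
(exactly as in the proof of `fam_zero` in `Pool.Agent.Q70.NilAlg`,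
`isCompact_univ.eventually_forall_of_forall_eventually`; the condition at the class of `x ∉ M_m` is void and
`M_m` is closed).
(d) So let `h ∈ H_i` with `dist (φ (h w)) (φ w) < 1/2` for all `w ∈ M_m`; we show `h ∈ 𝒦` (then
`γ t = (γ t (γ t₀)⁻¹) γ t₀ ∈ 𝒦`).  Let `s ∈ S`; `r = s⁻¹ h s h⁻¹ ∈ H_{i+1} ≤ 𝒦` with constant `c`.  For all
`w ∈ M_m`: `φ (h s w) = φ (s (s⁻¹ h s) w) = φ (r h w) = c φ (h w)`.  So with `f w = φ (h w) / φ w`,
`f (s w) = c f w`, `f (s^n w) = c^n f w` and `dist (c^n) 1 = dist (f (s^n w)) (f w) < 1` for all `n`, so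
`c = 1` (`circle_no_small`).  So `f (s w) = f w` for `s ∈ S`, and `f (w k) = f w` for `k ∈ D_m`, so `f` is
constant on `S D_m` and by continuity on `M_m = closure (S D_m)`.
(e) So `H ≤ 𝒦`: `φ (h w) = χ h · φ w` with `χ h = φ h` (`w = 1`, `φ 1 = 1`) for `h ∈ H`, `χ` is
multiplicative and continuous on `H`, `χ = 1` on `S` and on `H ∩ Λ` (`Λ ≤ D_{m+1} ⊆ M_{m+1}`), so `χ = 1` on
`H`, `φ z = χ z = 1`, a contradiction. -/
def S_SG : Prop :=
  ∀ (Q : Type) [Group Q] [TopologicalSpace Q] [IsTopologicalGroup Q], Group.IsNilpotent Q →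
    ∀ Λ : Subgroup Q, IsClosed (Λ : Set Q) → CompactSpace (Q ⧸ Λ) →
    ∀ S H : Subgroup Q, S ≤ H → (∀ s ∈ S, ∀ t ∈ S, s * t = t * s) →
    (∀ h ∈ H, ∃ n s, JIn H n ∧ s ∈ S ∧ h = n * s) →
    (∀ χ : Q → Circle, ContinuousOn χ H → (∀ x ∈ H, ∀ y ∈ H, χ (x * y) = χ x * χ y) →
      (∀ s ∈ S, χ s = 1) → (∀ h ∈ H, h ∈ Λ → χ h = 1) → ∀ h ∈ H, χ h = 1) →
    ∀ h ∈ H, h ∈ OC S Λ 1

/-- **B5 (recurrence along a progression)**, from `S_DM`.

Proof.  `S = ⟨σ, τ⟩`, `S_k = ⟨σ, τ^k⟩`, both abelian, elements `σ^l τ^i`, `σ^l τ^(k i)`.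
`M_j := OC S_k Λ (τ^j)` for `j : ℤ`.  `OC T Λ x` is closed, left `T`- and right `Λ`-invariant, so
`y ∈ OC T Λ x → OC T Λ y ⊆ OC T Λ x`, and with `S_DM` the sets `OC T Λ x` form a partition.
(1) `OC S Λ 1 ⊆ ⋃_{j < k} M_j`, a finite union of closed sets, since `σ^l τ^i λ ∈ S_k τ^(i mod k) Λ`.
(2) If `JIn H h` then `h ∈ M_0`: for a path `γ` in `H ⊆ OC S Λ 1`, the set `{t | γ t ∈ M_0}` is closed,
contains `0`, and its complement is `{t | γ t ∈ ⋃ {M_j | j < k, M_j ≠ M_0}}`, also closed; `[0,1]` is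
connected.
(3) Apply the hypothesis to `-j`: `τ^(-j) = n λ`, `n ∈ M_0`, so `τ^(-j) ∈ M_0 = OC S_k Λ 1`.  As `τ^j`
commutes with `S_k`, `τ^j OC S_k Λ x = OC S_k Λ (τ^j x)`, so `1 ∈ OC S_k Λ (τ^j)`.
(4) Positive times.  The sequence of classes of `τ^(k n)`, `n → ∞`, has a cluster point in `Q ⧸ Λ`, the
class of `z` say: for every neighbourhood `W` of `z` and every `N` there are `n ≥ N` and `λ ∈ Λ` with
`τ^(k n) λ ∈ W`.  So `z ∈ OC S_k Λ 1`, `τ^j z ∈ OC S_k Λ (τ^j)`, by `S_DM` `τ^j ∈ OC S_k Λ (τ^j z)` and by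
transitivity `1 ∈ OC S_k Λ (τ^j z)`.  Given an open neighbourhood `V` of `1` there are `l, m : ℤ`, `λ ∈ Λ` with
`σ^l τ^(k m) τ^j z λ ∈ V`; the set of `z'` with `σ^l τ^(k m) τ^j z' λ ∈ V` is a neighbourhood of `z`, so it
contains some `τ^(k n) λ'` with `n > |m|`, and `σ^l τ^(k (m + n) + j) λ' λ ∈ V` with `m + n > 0`. -/
def S_FI : Prop :=
  ∀ (Q : Type) [Group Q] [TopologicalSpace Q] [IsTopologicalGroup Q], Group.IsNilpotent Q →
    ∀ Λ : Subgroup Q, IsClosed (Λ : Set Q) → CompactSpace (Q ⧸ Λ) →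
    ∀ (H : Subgroup Q) (σ τ : Q), σ * τ = τ * σ →
    (∀ h ∈ H, h ∈ OC (Subgroup.closure {σ, τ}) Λ 1) →
    (∀ j : ℤ, ∃ n, JIn H n ∧ n⁻¹ * τ ^ j ∈ Λ) →
    ∀ k : ℕ, 0 < k → ∀ j : ℕ, ∀ V ∈ 𝓝 (1 : Q),
      ∃ l : ℤ, ∃ n : ℕ, 0 < n ∧ ∃ x ∈ Λ, σ ^ l * τ ^ (k * n + j) * x ∈ V

/-! ## C. Cocompactness of the lower central series (Malcev) -/

/-- `e` is an exponential map: one-parameter groups, Trotter's formula, open at `0`. -/
structure ExD {G : Type} [Group G] [TopologicalSpace G] (n : ℕ) (e : (Fin n → ℝ) → G) : Prop where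
  cont : Continuous e
  add : ∀ (v : Fin n → ℝ) (s t : ℝ), e ((s + t) • v) = e (s • v) * e (t • v)
  trotter : ∀ v w : Fin n → ℝ,
    Tendsto (fun m : ℕ => (e (((2 : ℝ) ^ m)⁻¹ • v) * e (((2 : ℝ) ^ m)⁻¹ • w)) ^ (2 ^ m)) atTop
      (𝓝 (e (v + w)))
  nhds : ∀ O ∈ 𝓝 (0 : Fin n → ℝ), e '' O ∈ 𝓝 (1 : G)

/-- `G` has an exponential map -/
def HasEx (G : Type) [Group G] [TopologicalSpace G] : Prop :=
  ∃ (n : ℕ) (e : (Fin n → ℝ) → G), ExD n e

/-- **C0 (exponential map of a Lie group).**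

Proof.  Use `Pool.Agent.H298R3.Exp` (files LogChart, OneParam) and `Pool.Agent.Q183.FC.Sub`:
`exists_logChart` gives `L : OpenPartialHomeomorph G E` with target `ball 0 ρ`, `L.symm 0 = 1`,
`L.symm (2 • v) = (L.symm v) ^ 2` for `‖v‖ < ρ/2`; `hL.exists_add` gives `δ` with
`L.symm (s • x) * L.symm (t • x) = L.symm ((s + t) • x)` for `‖x‖ < δ`, `|s|, |t| ≤ 1`; `symm_two_pow`.
Put `e₀ v = (L.symm ((2^m)⁻¹ • v)) ^ (2^m)` for any `m` with `‖(2^m)⁻¹ • v‖ < δ/2` (independent of the choice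
of `m`, by `symm_two_pow`; e.g. `m = ⌈‖v‖ · 2/δ⌉₊ + 1`, or prove: for `m ≤ m'` large the two values
agree).  Continuity: near `v₀` one `m` works for all `v`.  Additivity: take `m` with `‖(2^m)⁻¹ • (s • v)‖`,
`‖(2^m)⁻¹ • (t • v)‖` small; `L.symm (a • x)`, `L.symm (b • x)` commute and multiply to
`L.symm ((a + b) • x)` for small `a • x`, `b • x`, and raise to the power `2^m`.  Trotter: this is in the
proof of `add_mem_aux` in `Pool.Agent.Q183.FC.Sub` for small `v, w` (`‖v‖ + ‖w‖ < ρ`):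
`L (L.symm (2^-m v) L.symm (2^-m w)) = 2^-m (v + w) + o(2^-m)`; for arbitrary `v, w` take `r` with
`2^-r v`, `2^-r w` small and raise the limit for them to the power `2^r`
(`m = m' + r`, `(x)^(2^(m'+r)) = ((x)^(2^m'))^(2^r)`).  Open at `0`: `e₀ = L.symm` near `0` and `L.symm` is a
homeomorphism of `ball 0 ρ` onto the open set `L.source ∋ 1` (`L.symm` is open at `0`).
Finally replace `E` by `Fin n → ℝ` (`n = finrank ℝ E`) with a linear homeomorphism
(`ContinuousLinearEquiv.ofFinrankEq` or `toEuclidean`...). -/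
def S_X : Prop :=
  ∀ (E : Type) [NormedAddCommGroup E] [NormedSpace ℝ E] [FiniteDimensional ℝ E]
    (G : Type) [Group G] [TopologicalSpace G] [ChartedSpace E G] [LieGroup 𝓘(ℝ, E) ∞ G], HasEx G

/-- the closure of `L_i` -/
def Lc (G : Type) [Group G] [TopologicalSpace G] [IsTopologicalGroup G] (i : ℕ) : Subgroup G :=
  (L G i).topologicalClosure

/-- **C1 (a rational basis).**  There are `n + 1` pairs `(w_k, m_k) ∈ ℝⁿ × ℤ`, spanning `ℝⁿ × ℝ` over `ℝ`,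
with `e(w_k) g^{m_k} ∈ Γ` modulo the closure of `[G, G]`.

Proof.  (1) `e (v + w) ≡ e v e w` modulo `N := Lc G 1` (a closed normal subgroup with abelian quotient):
modulo `[G, G]` we have `(e(2^-m v) e(2^-m w))^(2^m) ≡ e(2^-m v)^(2^m) e(2^-m w)^(2^m) = e v e w`, i.e.
`(e v e w)⁻¹ (e(2^-m v) e(2^-m w))^(2^m) ∈ L G 1`; let `m → ∞` (`trotter`).  Hence `e (-v) ≡ (e v)⁻¹`, and
`A := {x | ∃ v, (e v)⁻¹ x ∈ N}` is a subgroup; it contains the neighbourhood `e '' univ` of `1`, so it is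
open, hence closed, and contains `NN G` (a path from `1` stays in it).  So every `x = n g^k` is `≡ e v g^k`.
(2) `P := {(v, m) ∈ ℝⁿ × ℤ | ∃ γ ∈ Γ, (e v g^m)⁻¹ γ ∈ N}` is a subgroup.  Suppose the image of `P` in
`ℝⁿ × ℝ` does not span; then there is a linear `ℓ ≠ 0` on `ℝⁿ × ℝ` vanishing on `P`
(`Submodule.exists_le_ker_of_lt_top`).  For `x ∈ G` put `f x = ℓ (v, m)` if `x ≡ e v g^m` mod `N`; this is
well defined, since `e v g^m ≡ e v' g^m'` implies `(v - v', m - m') ∈ P` (with `γ = 1`).  `f : G → ℝ` is a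
homomorphism, `f γ = 0` for `γ ∈ Γ` (`γ ≡ e v g^m` means `(v, m) ∈ P`), and `f` is continuous at `1`, hence
continuous: `|f| < ε` on `e '' {v | |ℓ (v, 0)| < ε}`, a neighbourhood of `1`.  So `f` factors through the
compact space `G ⧸ Γ` and is bounded; a bounded homomorphism to `ℝ` is `0` (`f (x^n) = n f x`).  So
`ℓ (v, 0) = f (e v) = 0` and `ℓ (0, 1) = f g = 0`, `ℓ = 0`, a contradiction.
(3) So the image of `P` spans `ℝⁿ × ℝ`, of dimension `n + 1`; choose a basis of `ℝⁿ × ℝ` in it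
(`exists_linearIndependent`, `Module.Basis.…`, or `Submodule.exists_fun_fin_finrank_span_eq`). -/
def S_C1 : Prop :=
  ∀ (G : Type) [Group G] [TopologicalSpace G] [IsTopologicalGroup G] (n : ℕ)
    (e : (Fin n → ℝ) → G), ExD n e → ∀ Γ : Subgroup G, CompactSpace (G ⧸ Γ) →
    ∀ g : G, (∀ x : G, ∃ y ∈ NN G, ∃ k : ℤ, x = y * g ^ k) →
    ∃ (w : Fin (n + 1) → (Fin n → ℝ)) (m : Fin (n + 1) → ℤ),
      (∀ k, ∃ γ ∈ Γ, (e (w k) * g ^ m k)⁻¹ * γ ∈ Lc G 1) ∧
      (∀ (v : Fin n → ℝ) (r : ℝ), ∃ t : Fin (n + 1) → ℝ, v = ∑ k, t k • w k ∧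
        r = ∑ k, t k * (m k : ℝ)) ∧
      (∀ v v' : Fin n → ℝ, (e (v + v'))⁻¹ * (e v * e v') ∈ Lc G 1) ∧
      (∀ x : G, ∃ (v : Fin n → ℝ) (k : ℤ), (e v * g ^ k)⁻¹ * x ∈ Lc G 1)

/-- `L_i` modulo the closure of `L_{i+1}` is the image of finitely many one-parameter groups whose values at
`1` are in `Γ` -/
def RD {G : Type} [Group G] [TopologicalSpace G] [IsTopologicalGroup G] (Γ : Subgroup G) (i : ℕ) :
    Prop :=
  ∃ (N : ℕ) (ψ : Fin N → ℝ → G), (∀ j, Continuous (ψ j)) ∧ (∀ j t, ψ j t ∈ L G i) ∧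
    (∀ j s t, (ψ j (s + t))⁻¹ * (ψ j s * ψ j t) ∈ Lc G (i + 1)) ∧
    (∀ j, ∃ γ ∈ Γ, (ψ j 1)⁻¹ * γ ∈ Lc G (i + 1)) ∧
    ∀ x ∈ L G i, ∃ t : Fin N → ℝ, x⁻¹ * (List.ofFn fun j => ψ j (t j)).prod ∈ Lc G (i + 1)

/-- **C2 (base)**, from `S_C1`.

Proof.  Work modulo `N₂ := Lc G 2` (closed normal, `[Lc G 1, G] ≤ N₂` by continuity, `Lc G 1` is central mod
`N₂`).  For `x, y ∈ G` the class of `⁅x, y⁆` mod `N₂` depends only on the classes of `x, y` mod `Lc G 1`,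
and is multiplicative in each variable (`comm_mul_left`, `comm_mul_right`).  By `S_C1`, `v ↦ e v` is additive
mod `Lc G 1`.  For `w = (v, m), w' = (v', m') ∈ ℝⁿ × ℝ` define
`β(w, w') = ⁅e v, e v'⁆ · ⁅e (m' v), g⁆ · ⁅e (m v'), g⁆⁻¹` (in `G`, with values in `L_1`), continuous in
`(w, w')`.  Modulo `N₂` it is biadditive; for `m, m' ∈ ℤ` it is `≡ ⁅e v g^m, e v' g^m'⁆` (as `⁅g, g⁆ = 1`,
`e (m v) = (e v)^m`).  For real `r`: `β(r w, w') ≡ β(w, r w')`: both sides are continuous in `r` and agree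
for rational `r = p/q` by biadditivity (`β((p/q) w, w') = β(p (1/q) w, q (1/q) w') = …`) — more precisely for
fixed `w, w'` the functions `r ↦ β(r w, w')` and `r ↦ β(w, r w')` are additive mod `N₂`, continuous, and agree
at integers; apply this to `w/q` in place of `w`: `β((p/q) w, w') = β(p (w/q), w') ≡ β(w/q, p w')
≡ β(w/q, q ((p/q) w')) ≡ β(w, (p/q) w')`; the set of `r` where they agree mod the CLOSED subgroup `N₂` is
closed.
Let `w_k = (w k, m k)` be the basis of `S_C1`, and for `j, k ≤ n` let `ψ_{jk}(t) = β(t w_j, w_k)`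
(index `Fin ((n+1)*(n+1))`, `finProdFinEquiv`).  It is continuous, `L_1`-valued, additive mod `N₂`.  At
`t = 1`: `≡ ⁅e(w_j) g^{m_j}, e(w_k) g^{m_k}⁆ ≡ ⁅γ_j, γ_k⁆ ∈ Γ` mod `N₂`.  Surjectivity: the set of `x ∈ L_1`
that are `≡ ∏ ψ_{jk}(t_{jk})` is a subgroup of `L_1` (all in the image commute mod `N₂`, `ψ_{jk}` additive),
so it suffices to treat `x = ⁅y, y'⁆` with `y ≡ e v g^m`, `y' ≡ e v' g^m'` mod `Lc G 1` (`S_C1`, last
clause), `x ≡ β(w, w')`, `w = ∑ s_j w_j`, `w' = ∑ t_k w_k` with real `s_j, t_k`, and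
`β(w, w') ≡ ∏ β(s_j w_j, t_k w_k) ≡ ∏ β(s_j t_k w_j, w_k) = ∏ ψ_{jk}(s_j t_k)`. -/
def S_C2 : Prop :=
  ∀ (G : Type) [Group G] [TopologicalSpace G] [IsTopologicalGroup G], HasEx G →
    ∀ Γ : Subgroup G, CompactSpace (G ⧸ Γ) →
    ∀ g : G, (∀ x : G, ∃ y ∈ NN G, ∃ k : ℤ, x = y * g ^ k) → RD Γ 1

/-- **C3 (step)**, from `S_C1`.

Proof.  Exactly as C2, one level up.  Let `i ≥ 1` and `ψ_1, …, ψ_N` as in `RD Γ i`; `N' := Lc G (i+2)`.  For
`x ∈ L_i`, `y ∈ G` the class of `⁅x, y⁆` mod `N'` depends only on `x` mod `Lc G (i+1)` and `y` mod `Lc G 1`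
(`[Lc G (i+1), G] ≤ N'`, `[L_i, Lc G 1] ≤ N'`: by continuity from `[L_i, L_1] ≤ L_{i+2}`, which follows from
the three subgroups lemma, or from `⁅x, ⁅y, z⁆⁆` and Hall–Witt), and is multiplicative in each variable.
For `k ≤ n`, `(w_k, m_k)` the basis of `S_C1`, and `j < N` put
`ψ'_{jk}(t) = ⁅ψ_j(t), e(w_k)⁆ · ⁅ψ_j(m_k t), g⁆`: continuous, values in `L_{i+1}`, additive mod `N'`; at
`t = 1`, `≡ ⁅ψ_j(1), e(w_k) g^{m_k}⁆ ≡ ⁅γ_j, γ'_k⁆ ∈ Γ`.  More generally for `w = (v, m) ∈ ℝⁿ × ℝ` put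
`β_j(t, w) = ⁅ψ_j(t), e v⁆ · ⁅ψ_j(m t), g⁆`: it is additive in `t` and in `w` mod `N'`, and
`β_j(t, r w) ≡ β_j(r t, w)` for real `r`: the second factors are equal, and
`⁅ψ_j(t), e(r v)⁆ ≡ ⁅ψ_j(r t), e v⁆` for integers, then for rational `r` and for real `r` by continuity (as in
C2).  For `m ∈ ℤ`, `β_j(t, (v, m)) ≡ ⁅ψ_j(t), e v g^m⁆`.  Surjectivity: the set of `x ∈ L_{i+1}` of the form
`∏ ψ'_{jk}(t_{jk})` mod `N'` is a subgroup; `L_{i+1}` is generated by `⁅x, y⁆`, `x ∈ L_i`, `y ∈ G`, and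
`x ≡ ∏_j ψ_j(s_j)` mod `Lc G (i+1)`, `y ≡ e v g^m` mod `Lc G 1`, `(v, m) = ∑ t_k (w_k, m_k)` with real `t_k`, so
`⁅x, y⁆ ≡ ∏_j β_j(s_j, (v, m)) ≡ ∏_{j,k} β_j(s_j, t_k w_k) ≡ ∏_{j,k} β_j(s_j t_k, w_k)
= ∏_{j,k} ψ'_{jk}(s_j t_k)`. -/
def S_C3 : Prop :=
  ∀ (G : Type) [Group G] [TopologicalSpace G] [IsTopologicalGroup G], HasEx G →
    ∀ Γ : Subgroup G, CompactSpace (G ⧸ Γ) →
    ∀ g : G, (∀ x : G, ∃ y ∈ NN G, ∃ k : ℤ, x = y * g ^ k) →
    ∀ i : ℕ, 1 ≤ i → RD Γ i → RD Γ (i + 1)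

/-- **C4 (descent: from `RD` to cocompactness).**

Proof.  `Coc Γ 0`: `G` is locally compact (`e '' closedBall 0 1` is a compact neighbourhood of `1`), so the
compact space `G ⧸ Γ` is covered by finitely many images of compact sets `x e(closedBall 0 1)`; their union
`C` satisfies `C Γ = G`.
Every subset of `Γ` is closed in `G` (`Γ` is a discrete subgroup of a Hausdorff group:
`Subgroup.isClosed_of_discrete`, a subgroup `Γ ∩ L_i` of `Γ` is discrete too; only these are needed).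
Downward induction on `i` from `L_c = 1` (trivial: `C = {1}`), for `i ≥ 1`: suppose `Coc Γ (i+1)` with compact
`C`.  Then `L_{i+1} = C (Γ ∩ L_{i+1})` is closed (compact times closed, `IsCompact.mul_closed…`), so
`Lc G (i+1) = L_{i+1}`.  Let `ψ_1, …, ψ_N` be as in `RD Γ i`, `K := {∏_j ψ_j(t_j) | t ∈ [0,1]^N}` (product
`(List.ofFn …).prod`), compact, `⊆ L_i`.  Let `x ∈ L_i`, `x ≡ ∏_j ψ_j(t_j)` mod `L_{i+1}`, `t_j = r_j + n_j`,
`r_j ∈ [0,1]`, `n_j ∈ ℤ` (floor); `ψ_j(t_j) ≡ ψ_j(r_j) ψ_j(1)^{n_j} ≡ ψ_j(r_j) γ_j^{n_j}` mod `L_{i+1}`, where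
`γ_j ∈ Γ`, `γ_j ≡ ψ_j(1)` so `γ_j ∈ L_i`.  Elements of `L_i` commute mod `L_{i+1}`, so
`x ≡ (∏_j ψ_j(r_j)) (∏_j γ_j^{n_j})`, `x = κ γ y` with `κ ∈ K`, `γ ∈ Γ ∩ L_i`, `y ∈ L_{i+1}`, and
`γ y = y' γ` with `y' ∈ L_{i+1}` (normal), `y' = c γ'`, `c ∈ C`, `γ' ∈ Γ ∩ L_{i+1}`; so
`x = (κ c)(γ' γ)` with `κ c ∈ K C ⊆ L_i`, `K C` compact. -/
def S_C4 : Prop :=
  ∀ (G : Type) [Group G] [TopologicalSpace G] [IsTopologicalGroup G] [T2Space G],
    Group.IsNilpotent G → HasEx G →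
    ∀ Γ : Subgroup G, DiscreteTopology Γ → CompactSpace (G ⧸ Γ) →
    (∀ i, 1 ≤ i → RD Γ i) → ∀ i, Coc Γ i

/-! ## D. The end game -/

/-- Standing hypotheses on `(G, Γ, g)`. -/
structure Nd {G : Type} [Group G] [TopologicalSpace G] [IsTopologicalGroup G] (Γ : Subgroup G)
    (g : G) : Prop where
  nil : Group.IsNilpotent G
  cl : IsClosed (Γ : Set G)
  coc : ∀ i, Coc Γ i
  opn : IsOpen (NN G : Set G)
  gen : ∀ x : G, ∃ n ∈ NN G, ∃ k : ℤ, x = n * g ^ k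
  fac : ∃ u ∈ NN G, ∃ γ ∈ Γ, g = u * γ
  min : ∀ (x : G) (V : Set G), IsOpen V → V.Nonempty → ∃ n : ℤ, ∃ γ ∈ Γ, g ^ n * x * γ ∈ V

/-- the group `H` generated by constants, `(a ↦ (u g) ^ r_a(1), 1)` and `(a ↦ u ^ a_0, 0)`, `u ∈ NN G` -/
def HH {G : Type} [Group G] [TopologicalSpace G] [IsTopologicalGroup G] (d : ℕ) (g : G) :
    Subgroup (QG d G) :=
  Subgroup.closure ({q | ∃ x : G, q = cst x} ∪ {q | ∃ u ∈ NN G, q = pw (u * g) 1} ∪
    {q | ∃ u ∈ NN G, q = ln u})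

/-- **D1 (characters of `H`)**, from `S_A1`, `S_POW`, `S_EX` (helper185). -/
def S_E : Prop :=
  ∀ (G : Type) [Group G] [TopologicalSpace G] [IsTopologicalGroup G] (Γ : Subgroup G) (g : G),
    Nd Γ g → ∀ (d : ℕ) (χ : QG d G → Circle), ContinuousOn χ (HH d g) →
    (∀ x ∈ HH d g, ∀ y ∈ HH d g, χ (x * y) = χ x * χ y) → χ (cst g) = 1 → χ (pw g 1) = 1 →
    (∀ h ∈ HH d g, h ∈ Lam d Γ → χ h = 1) → ∀ h ∈ HH d g, χ h = 1

end Pool.Agent.Q185.NP
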